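import Mathlib

/-!
# Binomial edge ideals of relations and the colon lemma
-/

namespace BEI

open MvPolynomial

variable {V : Type*} {K : Type*} [Field K]

/-- the index of the variable `x_i` -/
def xv (i : V) : V ⊕ₗ V := toLex (Sum.inl i)

/-- the index of the variable `y_i` -/
def yv (i : V) : V ⊕ₗ V := toLex (Sum.inr i)

theorem xv_inj {i j : V} : xv i = xv j ↔ i = j := by
  unfold xv; simp

theorem yv_inj {i j : V} : yv i = yv j ↔ i = j := by
  unfold yv; simp

@[simp] theorem xv_ne_yv (i j : V) : xv i ≠ yv j := by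
  unfold xv yv; simp

@[simp] theorem yv_ne_xv (i j : V) : yv i ≠ xv j := (xv_ne_yv j i).symm

theorem cases_v (s : V ⊕ₗ V) : ∃ i, s = xv i ∨ s = yv i := by
  rcases h : ofLex s with i | i
  · exact ⟨i, Or.inl (by rw [xv, ← h]; rfl)⟩
  · exact ⟨i, Or.inr (by rw [yv, ← h]; rfl)⟩

/-- the two-minor `x_i y_j - x_j y_i` -/
noncomputable def minor (K : Type*) [Field K] (i j : V) : MvPolynomial (V ⊕ₗ V) K :=
  X (xv i) * X (yv j) - X (xv j) * X (yv i)

/-- the ideal of the two-minors over a relation -/
noncomputable def J (K : Type*) [Field K] (r : V → V → Prop) : Ideal (MvPolynomial (V ⊕ₗ V) K) :=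
  Ideal.span {p | ∃ i j, r i j ∧ p = minor K i j}

theorem minor_mem {r : V → V → Prop} {i j : V} (h : r i j) : minor K i j ∈ J K r :=
  Ideal.subset_span ⟨i, j, h, rfl⟩

theorem J_mono {r r' : V → V → Prop} (h : ∀ i j, r i j → r' i j) : J K r ≤ J K r' :=
  Ideal.span_mono (by rintro p ⟨i, j, hij, rfl⟩; exact ⟨i, j, h i j hij, rfl⟩)

theorem minor_self (i : V) : minor K i i = 0 := by unfold minor; ring

theorem minor_comm (i j : V) : minor K j i = - minor K i j := by unfold minor; ring

/-- walk with all later vertices in `D` -/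
def conn (s : V → V → Prop) (D : Set V) (v w : V) : Prop :=
  Relation.ReflTransGen (fun a b => s a b ∧ b ∈ D) v w

/-- walk with all vertices in `D` -/
def conn2 (s : V → V → Prop) (D : Set V) (v w : V) : Prop :=
  Relation.ReflTransGen (fun a b => s a b ∧ a ∈ D ∧ b ∈ D) v w

theorem conn2.conn {s : V → V → Prop} {D : Set V} {v w : V} (h : conn2 s D v w) : conn s D v w :=
  Relation.ReflTransGen.mono (fun _ _ h => ⟨h.1, h.2.2⟩) _ _ h

theorem conn2.symm {s : V → V → Prop} (hs : ∀ a b, s a b → s b a) {D : Set V} {v w : V}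
    (h : conn2 s D v w) : conn2 s D w v := by
  haveI : Std.Symm (fun a b => s a b ∧ a ∈ D ∧ b ∈ D) :=
    ⟨fun _ _ h => ⟨hs _ _ h.1, h.2.2, h.2.1⟩⟩
  exact (Relation.ReflTransGen.stdSymm (r := fun a b => s a b ∧ a ∈ D ∧ b ∈ D)).symm _ _ h

theorem conn2.mem {s : V → V → Prop} {D : Set V} {v w : V} (h : conn2 s D v w) :
    v = w ∨ (v ∈ D ∧ w ∈ D) := by
  induction h with
  | refl => exact Or.inl rfl
  | tail h1 h2 ih =>
    rcases ih with rfl | ih
    · exact Or.inr ⟨h2.2.1, h2.2.2⟩
    · exact Or.inr ⟨ih.1, h2.2.2⟩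

theorem transport {s : V → V → Prop} {D : Set V} {v w : V} (h : conn s D v w) :
    ∀ N : (V ⊕ₗ V) →₀ ℕ, (∀ d ∈ D, d = v ∨ d = w ∨ 0 < N (xv d) + N (yv d)) →
      monomial N (1 : K) * minor K v w ∈ J K s := by
  classical
  induction h using Relation.ReflTransGen.head_induction_on with
  | refl => intro N _; rw [minor_self, mul_zero]; exact Ideal.zero_mem _
  | @head v k hvk _ ih =>
    intro N hN
    by_cases hkw : k = w
    · subst hkw
      exact Ideal.mul_mem_left _ _ (minor_mem hvk.1)
    by_cases hkv : k = v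
    · subst hkv
      exact ih N hN
    have h0 : 0 < N (xv k) + N (yv k) := by
      rcases hN k hvk.2 with h | h | h
      · exact absurd h hkv
      · exact absurd h hkw
      · exact h
    by_cases hy : 0 < N (yv k)
    · set N' := N - Finsupp.single (yv k) 1 with hN'
      have hNN : N = N' + Finsupp.single (yv k) 1 :=
        (tsub_add_cancel_of_le (by rw [Finsupp.single_le_iff]; exact hy)).symm
      have e1 : monomial N (1 : K) = monomial N' 1 * X (yv k) := by
        rw [hNN, X, monomial_mul, one_mul]
      have e2 : monomial (N' + Finsupp.single (yv v) 1) (1 : K) = monomial N' 1 * X (yv v) := by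
        rw [X, monomial_mul, one_mul]
      have e3 : monomial N (1 : K) * minor K v w = (monomial N' 1 * X (yv w)) * minor K v k +
          monomial (N' + Finsupp.single (yv v) 1) (1 : K) * minor K k w := by
        rw [e1, e2]; unfold minor; ring
      rw [e3]
      refine Ideal.add_mem _ (Ideal.mul_mem_left _ _ (minor_mem hvk.1)) (ih _ ?_)
      intro d hd
      by_cases hdk : d = k
      · exact Or.inl hdk
      rcases hN d hd with h | h | h
      · right; right
        subst h
        simp
      · exact Or.inr (Or.inl h)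
      · right; right
        have h1 : N' (xv d) = N (xv d) := by
          rw [hN', Finsupp.tsub_apply, Finsupp.single_apply, if_neg (yv_ne_xv _ _)]; rfl
        have h2 : N' (yv d) = N (yv d) := by
          rw [hN', Finsupp.tsub_apply, Finsupp.single_apply, if_neg (by
            rw [yv_inj]; exact fun h => hdk h.symm)]; rfl
        rw [Finsupp.add_apply, Finsupp.add_apply, h1, h2]
        omega
    · have hx : 0 < N (xv k) := by omega
      set N' := N - Finsupp.single (xv k) 1 with hN'
      have hNN : N = N' + Finsupp.single (xv k) 1 :=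
        (tsub_add_cancel_of_le (by rw [Finsupp.single_le_iff]; exact hx)).symm
      have e1 : monomial N (1 : K) = monomial N' 1 * X (xv k) := by
        rw [hNN, X, monomial_mul, one_mul]
      have e2 : monomial (N' + Finsupp.single (xv v) 1) (1 : K) = monomial N' 1 * X (xv v) := by
        rw [X, monomial_mul, one_mul]
      have e3 : monomial N (1 : K) * minor K v w = (monomial N' 1 * X (xv w)) * minor K v k +
          monomial (N' + Finsupp.single (xv v) 1) (1 : K) * minor K k w := by
        rw [e1, e2]; unfold minor; ring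
      rw [e3]
      refine Ideal.add_mem _ (Ideal.mul_mem_left _ _ (minor_mem hvk.1)) (ih _ ?_)
      intro d hd
      by_cases hdk : d = k
      · exact Or.inl hdk
      rcases hN d hd with h | h | h
      · right; right
        subst h
        simp
      · exact Or.inr (Or.inl h)
      · right; right
        have h1 : N' (yv d) = N (yv d) := by
          rw [hN', Finsupp.tsub_apply, Finsupp.single_apply, if_neg (xv_ne_yv _ _)]; rfl
        have h2 : N' (xv d) = N (xv d) := by
          rw [hN', Finsupp.tsub_apply, Finsupp.single_apply, if_neg (by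
            rw [xv_inj]; exact fun h => hdk h.symm)]; rfl
        rw [Finsupp.add_apply, Finsupp.add_apply, h1, h2]
        omega

/-! ### linear functionals counting classes of monomials -/

section phi

variable {σ : Type*} {γ : Type*}

open scoped Classical in
/-- sum of the coefficients of the monomials of class `c` -/
noncomputable def phi (K : Type*) [Field K] (κ : (σ →₀ ℕ) → γ) (c : γ) :
    MvPolynomial σ K →ₗ[K] K :=
  (basisMonomials σ K).constr K (fun m => if κ m = c then (1 : K) else 0)

open scoped Classical in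
theorem phi_monomial (κ : (σ →₀ ℕ) → γ) (c : γ) (m : σ →₀ ℕ) :
    phi K κ c (monomial m (1 : K)) = if κ m = c then (1 : K) else 0 := by
  have := (basisMonomials σ K).constr_basis K (fun m => if κ m = c then (1 : K) else 0) m
  rw [coe_basisMonomials] at this
  exact this

open scoped Classical in
theorem phi_apply (κ : (σ →₀ ℕ) → γ) (c : γ) (p : MvPolynomial σ K) :
    phi K κ c p = ∑ m ∈ p.support, if κ m = c then p.coeff m else 0 := by
  conv_lhs => rw [p.as_sum]
  rw [map_sum]
  refine Finset.sum_congr rfl fun m _ => ?_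
  rw [show monomial m (coeff m p) = (coeff m p) • monomial m (1 : K) by
    rw [smul_monomial, smul_eq_mul, mul_one], map_smul, phi_monomial]
  split_ifs <;> simp

theorem mem_of_phi {I : Ideal (MvPolynomial σ K)} {κ : (σ →₀ ℕ) → γ}
    (h : ∀ m m', κ m = κ m' → monomial m (1 : K) - monomial m' 1 ∈ I) (p : MvPolynomial σ K)
    (hp : ∀ c, phi K κ c p = 0) : p ∈ I := by
  classical
  have hrep : ∀ m : σ →₀ ℕ, ∃ m', κ m' = κ m := fun m => ⟨m, rfl⟩
  have : ∃ ρ : γ → (σ →₀ ℕ), ∀ m, κ (ρ (κ m)) = κ m := by
    refine ⟨fun c => if hc : ∃ m, κ m = c then hc.choose else 0, fun m => ?_⟩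
    have hc : ∃ m', κ m' = κ m := ⟨m, rfl⟩
    simp only [dif_pos hc]
    exact hc.choose_spec
  obtain ⟨ρ, hρ⟩ := this
  have h1 : p - ∑ m ∈ p.support, (coeff m p) • monomial (ρ (κ m)) (1 : K) ∈ I := by
    have : p - ∑ m ∈ p.support, (coeff m p) • monomial (ρ (κ m)) (1 : K) =
        ∑ m ∈ p.support, C (coeff m p) * (monomial m (1 : K) - monomial (ρ (κ m)) 1) := by
      conv_lhs => lhs; rw [p.as_sum]
      rw [← Finset.sum_sub_distrib]
      refine Finset.sum_congr rfl fun m _ => ?_
      rw [mul_sub, C_mul_monomial, mul_one, C_mul_monomial, smul_monomial, smul_eq_mul]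
    rw [this]
    exact Ideal.sum_mem _ fun m _ => Ideal.mul_mem_left _ _ (h _ _ (hρ m).symm)
  have h2 : ∑ m ∈ p.support, (coeff m p) • monomial (ρ (κ m)) (1 : K) = 0 := by
    rw [← Finset.sum_fiberwise_of_maps_to (t := p.support.image κ)
      (fun m hm => Finset.mem_image_of_mem κ hm)]
    refine Finset.sum_eq_zero fun c _ => ?_
    have : ∑ m ∈ p.support with κ m = c, (coeff m p) • monomial (ρ (κ m)) (1 : K) =
        (∑ m ∈ p.support with κ m = c, coeff m p) • monomial (ρ c) (1 : K) := by
      rw [Finset.sum_smul]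
      refine Finset.sum_congr rfl fun m hm => ?_
      rw [(Finset.mem_filter.1 hm).2]
    rw [this]
    have h3 := hp c
    rw [phi_apply, ← Finset.sum_filter] at h3
    rw [h3, zero_smul]
  rw [h2, sub_zero] at h1
  exact h1

theorem phi_eq_zero {g : Set (MvPolynomial σ K)} {κ : (σ →₀ ℕ) → γ}
    (h : ∀ q ∈ g, ∀ m c, phi K κ c (monomial m 1 * q) = 0) {p : MvPolynomial σ K}
    (hp : p ∈ Ideal.span g) (c : γ) : phi K κ c p = 0 := by
  have key : ∀ a, phi K κ c (a * p) = 0 := by
    induction hp using Submodule.span_induction with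
    | mem q hq =>
      intro a
      rw [a.as_sum, Finset.sum_mul, map_sum]
      refine Finset.sum_eq_zero fun m _ => ?_
      rw [show monomial m (coeff m a) = (coeff m a) • monomial m (1 : K) by
        rw [smul_monomial, smul_eq_mul, mul_one], smul_mul_assoc, map_smul, h q hq, smul_zero]
    | zero => intro a; simp
    | add x y _ _ hx hy => intro a; rw [mul_add, map_add, hx, hy, add_zero]
    | smul b x _ hx => intro a; rw [smul_eq_mul, ← mul_assoc]; exact hx _
  have := key 1
  rwa [one_mul] at this

end phi

/-! ### classes of monomials -/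

/-- the vertices of the variables of a monomial -/
def vs (m : (V ⊕ₗ V) →₀ ℕ) : Set V := {v | 0 < m (xv v) + m (yv v)}

variable [Fintype V]

open scoped Classical in
/-- the class of a monomial -/
noncomputable def kap (s : V → V → Prop) (m : (V ⊕ₗ V) →₀ ℕ) : (V → ℕ) × (V → ℕ) :=
  (fun v => m (xv v) + m (yv v), fun v => ∑ w, if conn2 s (vs m) v w then m (xv w) else 0)

theorem kap_swap {s : V → V → Prop} (hs : ∀ a b, s a b → s b a) (N : (V ⊕ₗ V) →₀ ℕ) (i j : V)
    (h : conn2 s (vs (N + Finsupp.single (xv i) 1 + Finsupp.single (yv j) 1)) i j) :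
    kap s (N + Finsupp.single (xv i) 1 + Finsupp.single (yv j) 1) =
      kap s (N + Finsupp.single (xv j) 1 + Finsupp.single (yv i) 1) := by
  classical
  have ha : ∀ v, (N + Finsupp.single (xv i) 1 + Finsupp.single (yv j) 1 : (V ⊕ₗ V) →₀ ℕ) (xv v) +
      (N + Finsupp.single (xv i) 1 + Finsupp.single (yv j) 1 : (V ⊕ₗ V) →₀ ℕ) (yv v) =
      (N + Finsupp.single (xv j) 1 + Finsupp.single (yv i) 1 : (V ⊕ₗ V) →₀ ℕ) (xv v) +
      (N + Finsupp.single (xv j) 1 + Finsupp.single (yv i) 1 : (V ⊕ₗ V) →₀ ℕ) (yv v) := by
    intro v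
    simp only [Finsupp.add_apply, Finsupp.single_apply, xv_inj, yv_inj, xv_ne_yv, yv_ne_xv,
      if_false]
    ring
  have hv : vs (N + Finsupp.single (xv i) 1 + Finsupp.single (yv j) 1) =
      vs (N + Finsupp.single (xv j) 1 + Finsupp.single (yv i) 1) := by
    ext v
    simp only [vs, Set.mem_setOf_eq, ha v]
  unfold kap
  refine Prod.ext (funext ha) ?_
  funext v
  simp only
  rw [← hv]
  set D := vs (N + Finsupp.single (xv i) 1 + Finsupp.single (yv j) 1) with hD
  have e : ∀ (a b : V), (∑ w, if conn2 s D v w then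
      (N + Finsupp.single (xv a) 1 + Finsupp.single (yv b) 1 : (V ⊕ₗ V) →₀ ℕ) (xv w) else 0) =
      (∑ w, if conn2 s D v w then N (xv w) else 0) + if conn2 s D v a then 1 else 0 := by
    intro a b
    have : (if conn2 s D v a then 1 else 0) =
        ∑ w, if conn2 s D v w then (if a = w then 1 else 0) else 0 := by
      rw [Finset.sum_eq_single a]
      · simp
      · intro w _ hw
        rw [if_neg (fun h : a = w => hw h.symm)]; simp
      · intro h; exact absurd (Finset.mem_univ a) h
    rw [this, ← Finset.sum_add_distrib]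
    refine Finset.sum_congr rfl fun w _ => ?_
    simp only [Finsupp.add_apply, Finsupp.single_apply, xv_inj, yv_ne_xv, if_false]
    split_ifs <;> ring
  rw [e, e]
  have h2 : conn2 s D v i ↔ conn2 s D v j :=
    ⟨fun h' => h'.trans h, fun h' => h'.trans (h.symm hs)⟩
  simp only [h2]

theorem phi_J {s : V → V → Prop} (hs : ∀ a b, s a b → s b a) {p : MvPolynomial (V ⊕ₗ V) K}
    (hp : p ∈ J K s) (c) : phi K (kap s) c p = 0 := by
  classical
  refine phi_eq_zero ?_ hp c
  rintro q ⟨i, j, hij, rfl⟩ m c
  have e : monomial m (1 : K) * minor K i j =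
      monomial (m + Finsupp.single (xv i) 1 + Finsupp.single (yv j) 1) 1 -
      monomial (m + Finsupp.single (xv j) 1 + Finsupp.single (yv i) 1) 1 := by
    unfold minor
    simp only [X]
    rw [mul_sub, ← mul_assoc, ← mul_assoc, monomial_mul, monomial_mul, monomial_mul, monomial_mul]
    simp
  rw [e, map_sub, phi_monomial, phi_monomial, kap_swap hs, sub_self]
  refine Relation.ReflTransGen.single ⟨hij, ?_, ?_⟩
  · simp only [vs, Set.mem_setOf_eq, Finsupp.add_apply, Finsupp.single_apply]
    simp
  · simp only [vs, Set.mem_setOf_eq, Finsupp.add_apply, Finsupp.single_apply]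
    simp

theorem kap_eq_mem {s : V → V → Prop} (hs : ∀ a b, s a b → s b a) :
    ∀ n : ℕ, ∀ m m' : (V ⊕ₗ V) →₀ ℕ, (∑ v, (m (xv v) - m' (xv v))) = n → kap s m = kap s m' →
      monomial m (1 : K) - monomial m' 1 ∈ J K s := by
  classical
  intro n
  induction n using Nat.strong_induction_on with
  | _ n ih =>
    intro m m' hn hk
    have ha : ∀ v, m (xv v) + m (yv v) = m' (xv v) + m' (yv v) := fun v =>
      congrFun (congrArg Prod.fst hk) v
    have hvs : vs m = vs m' := by ext v; simp only [vs, Set.mem_setOf_eq, ha v]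
    have hb : ∀ v, (∑ w, if conn2 s (vs m) v w then m (xv w) else 0) =
        ∑ w, if conn2 s (vs m) v w then m' (xv w) else 0 := by
      intro v
      have := congrFun (congrArg Prod.snd hk) v
      simp only [kap, ← hvs] at this
      exact this
    by_cases hall : ∀ v, m (xv v) = m' (xv v)
    · have : m = m' := by
        ext t
        obtain ⟨i, rfl | rfl⟩ := cases_v t
        · exact hall i
        · have := ha i; have := hall i; omega
      rw [this, sub_self]; exact Ideal.zero_mem _
    push Not at hall
    obtain ⟨v, hv⟩ := hall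
    have hlt : ∃ w1, conn2 s (vs m) v w1 ∧ m' (xv w1) < m (xv w1) := by
      by_contra hcon
      push Not at hcon
      have : (∑ w, if conn2 s (vs m) v w then m (xv w) else 0) <
          ∑ w, if conn2 s (vs m) v w then m' (xv w) else 0 := by
        refine Finset.sum_lt_sum ?_ ⟨v, Finset.mem_univ v, ?_⟩
        · intro w _
          split_ifs with h
          · exact hcon w h
          · exact le_rfl
        · have h0 : conn2 s (vs m) v v := Relation.ReflTransGen.refl
          rw [if_pos h0, if_pos h0]
          exact lt_of_le_of_ne (hcon v h0) hv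
      rw [hb v] at this
      exact lt_irrefl _ this
    have hgt : ∃ w1, conn2 s (vs m) v w1 ∧ m (xv w1) < m' (xv w1) := by
      by_contra hcon
      push Not at hcon
      have : (∑ w, if conn2 s (vs m) v w then m' (xv w) else 0) <
          ∑ w, if conn2 s (vs m) v w then m (xv w) else 0 := by
        refine Finset.sum_lt_sum ?_ ⟨v, Finset.mem_univ v, ?_⟩
        · intro w _
          split_ifs with h
          · exact hcon w h
          · exact le_rfl
        · have h0 : conn2 s (vs m) v v := Relation.ReflTransGen.refl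
          rw [if_pos h0, if_pos h0]
          exact lt_of_le_of_ne (hcon v h0) (Ne.symm hv)
      rw [hb v] at this
      exact lt_irrefl _ this
    obtain ⟨w1, hc1, h1⟩ := hlt
    obtain ⟨w2, hc2, h2⟩ := hgt
    have h12 : w1 ≠ w2 := by rintro rfl; omega
    have hy2 : 0 < m (yv w2) := by have := ha w2; omega
    have hc : conn2 s (vs m) w1 w2 := (hc1.symm hs).trans hc2
    set N := m - Finsupp.single (xv w1) 1 - Finsupp.single (yv w2) 1 with hN
    have hNm : N + Finsupp.single (xv w1) 1 + Finsupp.single (yv w2) 1 = m := by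
      ext t
      obtain ⟨i, rfl | rfl⟩ := cases_v t
      · simp only [hN, Finsupp.add_apply, Finsupp.tsub_apply, Finsupp.single_apply, xv_inj,
          yv_ne_xv, if_false]
        by_cases hi : w1 = i
        · subst hi; rw [if_pos rfl]; omega
        · rw [if_neg hi]; omega
      · simp only [hN, Finsupp.add_apply, Finsupp.tsub_apply, Finsupp.single_apply, yv_inj,
          xv_ne_yv, if_false]
        by_cases hi : w2 = i
        · subst hi; rw [if_pos rfl]; omega
        · rw [if_neg hi]; omega
    have hsw := kap_swap hs N w1 w2 (by rw [hNm]; exact hc)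
    rw [hNm] at hsw
    set m1 := N + Finsupp.single (xv w2) 1 + Finsupp.single (yv w1) 1 with hm1
    have hN1 : ∀ t, N (xv t) = m (xv t) - if w1 = t then 1 else 0 := by
      intro t
      simp only [hN, Finsupp.tsub_apply, Finsupp.single_apply, xv_inj, yv_ne_xv, if_false]
      omega
    have hm1x : ∀ t, m1 (xv t) = (m (xv t) - if w1 = t then 1 else 0) +
        if w2 = t then 1 else 0 := by
      intro t
      simp only [hm1, Finsupp.add_apply, hN1, Finsupp.single_apply, xv_inj, yv_ne_xv, if_false]
      omega
    have hlt : (∑ v, (m1 (xv v) - m' (xv v))) < n := by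
      rw [← hn]
      refine Finset.sum_lt_sum ?_ ⟨w1, Finset.mem_univ w1, ?_⟩
      · intro t _
        rw [hm1x]
        by_cases ht2 : w2 = t
        · subst ht2
          rw [if_neg h12, if_pos rfl]; omega
        · rw [if_neg ht2]; omega
      · rw [hm1x, if_pos rfl, if_neg (Ne.symm h12)]; omega
    have hrec := ih _ hlt m1 m' rfl (hsw.symm.trans hk)
    have htr : monomial m (1 : K) - monomial m1 1 ∈ J K s := by
      have e : monomial m (1 : K) - monomial m1 1 = monomial N 1 * minor K w1 w2 := by
        unfold minor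
        simp only [X]
        rw [mul_sub, ← mul_assoc, ← mul_assoc, monomial_mul, monomial_mul, monomial_mul,
          monomial_mul, mul_one, mul_one, hNm]
      rw [e]
      refine transport hc.conn N ?_
      intro d hd
      by_cases hd1 : d = w1
      · exact Or.inl hd1
      by_cases hd2 : d = w2
      · exact Or.inr (Or.inl hd2)
      right; right
      have hd' : 0 < m (xv d) + m (yv d) := hd
      rw [← hNm] at hd'
      simp only [Finsupp.add_apply, Finsupp.single_apply, xv_inj, yv_inj,
          yv_ne_xv, xv_ne_yv, if_false, if_neg (Ne.symm hd1), if_neg (Ne.symm hd2)] at hd'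
      omega
    have : monomial m (1 : K) - monomial m' 1 =
        (monomial m (1 : K) - monomial m1 1) + (monomial m1 (1 : K) - monomial m' 1) := by ring
    rw [this]
    exact Ideal.add_mem _ htr hrec

/-- the relation obtained by joining all neighbours of `u` -/
def shortcut (s : V → V → Prop) (u : V) (a b : V) : Prop := s a b ∨ (s a u ∧ s u b)

omit [Fintype V] in
theorem conn2_shortcut {s : V → V → Prop} {u : V} {D D' : Set V}
    (hD : ∀ v, v ∈ D' ↔ v ∈ D ∨ v = u) {v w : V} (hv : v ∈ D) (hw : w ∈ D) :
    conn2 (shortcut s u) D v w ↔ conn2 s D' v w := by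
  constructor
  · intro h
    clear hv hw
    induction h with
    | refl => exact Relation.ReflTransGen.refl
    | tail _ h2 ih =>
      obtain ⟨h3, h4, h5⟩ := h2
      rcases h3 with h3 | ⟨h3, h6⟩
      · exact ih.tail ⟨h3, (hD _).2 (Or.inl h4), (hD _).2 (Or.inl h5)⟩
      · exact (ih.tail ⟨h3, (hD _).2 (Or.inl h4), (hD _).2 (Or.inr rfl)⟩).tail
          ⟨h6, (hD _).2 (Or.inr rfl), (hD _).2 (Or.inl h5)⟩
  · intro h
    have key : (w ∈ D → conn2 (shortcut s u) D v w) ∧
        (w = u → u ∉ D → ∃ k ∈ D, conn2 (shortcut s u) D v k ∧ s k u) := by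
      clear hw
      induction h with
      | refl =>
        exact ⟨fun _ => Relation.ReflTransGen.refl, fun h h' => absurd (h ▸ hv) h'⟩
      | @tail w w' _ h2 ih =>
        obtain ⟨h3, h4, h5⟩ := h2
        rw [hD] at h4 h5
        refine ⟨fun hw' => ?_, fun hw' hu => ?_⟩
        · by_cases hwD : w ∈ D
          · exact (ih.1 hwD).tail ⟨Or.inl h3, hwD, hw'⟩
          · have hwu : w = u := h4.resolve_left hwD
            obtain ⟨k, hk, hk1, hk2⟩ := ih.2 hwu (hwu ▸ hwD)
            exact hk1.tail ⟨Or.inr ⟨hk2, hwu ▸ h3⟩, hk, hw'⟩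
        · subst hw'
          by_cases hwD : w ∈ D
          · exact ⟨w, hwD, ih.1 hwD, h3⟩
          · exact ih.2 (h4.resolve_left hwD) hu
    exact key.1 hw

theorem kap_shortcut {s : V → V → Prop} (u : V) (m m' : (V ⊕ₗ V) →₀ ℕ)
    (h : kap s (m + Finsupp.single (xv u) 1) = kap s (m' + Finsupp.single (xv u) 1)) :
    kap (shortcut s u) m = kap (shortcut s u) m' := by
  classical
  have ha : ∀ v, m (xv v) + m (yv v) = m' (xv v) + m' (yv v) := by
    intro v
    have := congrFun (congrArg Prod.fst h) v
    simp only [kap, Finsupp.add_apply, Finsupp.single_apply, xv_inj, xv_ne_yv, if_false] at this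
    omega
  have hvs : vs m = vs m' := by ext v; simp only [vs, Set.mem_setOf_eq, ha v]
  have hD : ∀ m : (V ⊕ₗ V) →₀ ℕ, ∀ v, v ∈ vs (m + Finsupp.single (xv u) 1) ↔ v ∈ vs m ∨ v = u := by
    intro m v
    simp only [vs, Set.mem_setOf_eq, Finsupp.add_apply, Finsupp.single_apply, xv_inj, xv_ne_yv,
      if_false]
    by_cases hvu : v = u
    · subst hvu; simp
    · rw [if_neg (Ne.symm hvu)]; simp [hvu]
  have key : ∀ m : (V ⊕ₗ V) →₀ ℕ, ∀ v ∈ vs m,
      (∑ w, if conn2 s (vs (m + Finsupp.single (xv u) 1)) v w then
        (m + Finsupp.single (xv u) 1 : (V ⊕ₗ V) →₀ ℕ) (xv w) else 0) =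
      (∑ w, if conn2 (shortcut s u) (vs m) v w then m (xv w) else 0) +
        if conn2 s (vs (m + Finsupp.single (xv u) 1)) v u then 1 else 0 := by
    intro m v hv
    have : (if conn2 s (vs (m + Finsupp.single (xv u) 1)) v u then 1 else 0) =
        ∑ w, if conn2 s (vs (m + Finsupp.single (xv u) 1)) v w then
          (if u = w then 1 else 0) else 0 := by
      rw [Finset.sum_eq_single u]
      · simp
      · intro w _ hw
        rw [if_neg (fun h : u = w => hw h.symm)]; simp
      · intro h; exact absurd (Finset.mem_univ u) h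
    rw [this, ← Finset.sum_add_distrib]
    refine Finset.sum_congr rfl fun w _ => ?_
    simp only [Finsupp.add_apply, Finsupp.single_apply, xv_inj]
    by_cases hw : w ∈ vs m
    · have := conn2_shortcut (s := s) (u := u) (D := vs m)
        (D' := vs (m + Finsupp.single (xv u) 1)) (hD m) hv hw
      simp only [this]
      split_ifs <;> ring
    · have h1 : m (xv w) = 0 := by
        simp only [vs, Set.mem_setOf_eq] at hw; omega
      rw [h1]
      simp
  have hvs' : vs (m + Finsupp.single (xv u) 1) = vs (m' + Finsupp.single (xv u) 1) := by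
    ext v; rw [hD, hD, hvs]
  unfold kap
  refine Prod.ext (funext ha) ?_
  funext v
  simp only
  by_cases hv : v ∈ vs m
  · have h1 := key m v hv
    have h2 := key m' v (hvs ▸ hv)
    have h3 := congrFun (congrArg Prod.snd h) v
    simp only [kap] at h3
    rw [h1, h2, hvs'] at h3
    exact Nat.add_right_cancel h3
  · have e : ∀ m : (V ⊕ₗ V) →₀ ℕ, v ∉ vs m →
        (∑ w, if conn2 (shortcut s u) (vs m) v w then m (xv w) else 0) = 0 := by
      intro m hv
      refine Finset.sum_eq_zero fun w _ => ?_
      split_ifs with hc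
      · rcases hc.mem with rfl | h'
        · simp only [vs, Set.mem_setOf_eq] at hv; omega
        · exact absurd h'.1 hv
      · rfl
    rw [e m hv, e m' (hvs ▸ hv)]

/-- **The colon lemma.** -/
theorem colon {s : V → V → Prop} (hs : ∀ a b, s a b → s b a) (u : V)
    {g : MvPolynomial (V ⊕ₗ V) K} (h : X (xv u) * g ∈ J K s) : g ∈ J K (shortcut s u) := by
  classical
  have hs' : ∀ a b, shortcut s u a b → shortcut s u b a := by
    rintro a b (h | ⟨h1, h2⟩)
    · exact Or.inl (hs _ _ h)
    · exact Or.inr ⟨hs _ _ h2, hs _ _ h1⟩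
  refine mem_of_phi (κ := fun m => kap s (m + Finsupp.single (xv u) 1)) ?_ g ?_
  · intro m m' hmm
    exact kap_eq_mem hs' _ m m' rfl (kap_shortcut u m m' hmm)
  · intro c
    have h1 := phi_J hs h c
    rw [g.as_sum, Finset.mul_sum, map_sum] at h1
    rw [g.as_sum, map_sum]
    rw [← h1]
    refine Finset.sum_congr rfl fun m _ => ?_
    rw [show monomial m (coeff m g) = (coeff m g) • monomial m (1 : K) by
      rw [smul_monomial, smul_eq_mul, mul_one], map_smul, mul_smul_comm, map_smul, X,
      monomial_mul, one_mul, phi_monomial, phi_monomial, add_comm (Finsupp.single (xv u) 1) m]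

end BEI
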