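import Pool.Agent.Hhelper18.BEI.Step

/-!
# The combinatorial recursion
-/

namespace BEI

open MvPolynomial

attribute [local instance 10000] LinearOrder.toDecidableEq

variable {V : Type*} {K : Type*} [Field K]

/-- a walk with all interior vertices in `P` -/
def via (adj : V → V → Prop) (P : Set V) (a b : V) : Prop := ∃ c, conn adj P a c ∧ adj c b

theorem conn.mono {adj : V → V → Prop} {P P' : Set V} (h : P ⊆ P') {a b : V}
    (hab : conn adj P a b) : conn adj P' a b :=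
  Relation.ReflTransGen.mono (fun _ _ h' => ⟨h'.1, h h'.2⟩) _ _ hab

theorem conn.mem {adj : V → V → Prop} {P : Set V} {a b : V} (ha : a ∈ P)
    (hab : conn adj P a b) : b ∈ P := by
  induction hab with
  | refl => exact ha
  | tail _ h _ => exact h.2

theorem via.mono {adj : V → V → Prop} {P P' : Set V} (h : P ⊆ P') {a b : V}
    (hab : via adj P a b) : via adj P' a b := by
  obtain ⟨c, h1, h2⟩ := hab
  exact ⟨c, h1.mono h, h2⟩

theorem via.symm {adj : V → V → Prop} (hs : ∀ a b, adj a b → adj b a) {P : Set V} {a b : V}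
    (hab : via adj P a b) : via adj P b a := by
  obtain ⟨c, h1, h2⟩ := hab
  induction h1 generalizing b with
  | refl => exact ⟨b, Relation.ReflTransGen.refl, hs _ _ h2⟩
  | tail _ h3 ih =>
    obtain ⟨d, h4, h5⟩ := ih h3.1
    exact ⟨d, Relation.ReflTransGen.head ⟨hs _ _ h2, h3.2⟩ h4, h5⟩

variable [LinearOrder V]

/-- composition of the leaf operators of a list of pairs -/
noncomputable def tauL : List (V × V) → (Finset (V ⊕ₗ V) → MvPolynomial (V ⊕ₗ V) K) →
    (Finset (V ⊕ₗ V) → MvPolynomial (V ⊕ₗ V) K)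
  | [], z => z
  | p :: l, z => tau p.1 p.2 (tauL l z)

theorem tauL_append (l l' : List (V × V)) (z : Finset (V ⊕ₗ V) → MvPolynomial (V ⊕ₗ V) K) :
    tauL (l ++ l') z = tauL l (tauL l' z) := by
  induction l with
  | nil => rfl
  | cons p l ih =>
    change tau p.1 p.2 (tauL (l ++ l') z) = tau p.1 p.2 (tauL l (tauL l' z))
    rw [ih]

theorem Supp.tauL {W : Set V} {z : Finset (V ⊕ₗ V) → MvPolynomial (V ⊕ₗ V) K} (hz : Supp W z)
    {l : List (V × V)} (hl : ∀ p ∈ l, p.1 ∈ W ∧ p.2 ∈ W) : Supp W (tauL l z) := by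
  induction l with
  | nil => exact hz
  | cons p l ih =>
    have := ih fun p hp => hl p (List.mem_cons_of_mem _ hp)
    exact this.tau (hl p List.mem_cons_self).1 (hl p List.mem_cons_self).2

variable [Fintype V]

theorem process {adj : V → V → Prop} (hs : ∀ a b, adj a b → adj b a) {A' R' : Set V}
    {q : V → V} {z : Finset (V ⊕ₗ V) → MvPolynomial (V ⊕ₗ V) K} (hz : Supp A' z) :
    ∀ (l : List V) (P : Set V), l.Nodup → (∀ u ∈ l, u ∈ A') → (∀ u ∈ l, q u ∈ R') →
      (∀ u ∈ l, q u ∉ A') →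
      (∀ p ∈ P, p ∈ R' ∨ (p ∈ A' ∧ p ∉ l)) →
      (∀ u ∈ l, ∃ C : Set V, q u ∈ C ∧ (∀ c ∈ C, ∀ x, adj c x → x ∈ R' → x ∈ C) ∧
        (∀ c ∈ C, ∀ x ∈ A', adj c x → x = u) ∧ ∀ w ∈ l, q w ∈ C → w = u) →
      NB (J K (restr (via adj (P ∪ {x | x ∈ l})) A')) z →
      NB (J K (restr (via adj P) (A' ∪ {x | ∃ u ∈ l, x = q u})))
        (tauL (l.map fun u => (u, q u)) z) := by
  intro l
  induction l with
  | nil =>
    intro P _ _ _ _ _ _ h
    refine h.mono (J_mono ?_)
    rintro a b ⟨h1, h2, h3⟩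
    refine ⟨h1.mono Set.subset_union_left, ?_, ?_⟩
    · rcases h2 with h2 | ⟨u, hu, _⟩
      · exact h2
      · exact absurd hu (by simp)
    · rcases h3 with h3 | ⟨u, hu, _⟩
      · exact h3
      · exact absurd hu (by simp)
  | cons u l ih =>
    intro P hnd hA hR hqA hP hC h
    obtain ⟨hul, hnd'⟩ := List.nodup_cons.1 hnd
    have huA : u ∈ A' := hA u List.mem_cons_self
    have hquA : q u ∉ A' := hqA u List.mem_cons_self
    have huq : u ≠ q u := fun h => hquA (h ▸ huA)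
    obtain ⟨C, hC1, hC2, hC3, hC4⟩ := hC u List.mem_cons_self
    have hql : ∀ w ∈ l, q w ≠ q u := by
      intro w hw he
      have : w = u := hC4 w (List.mem_cons_of_mem _ hw) (he ▸ hC1)
      exact hul (this ▸ hw)
    have hsupp : Supp (A' ∪ {x | ∃ u ∈ l, x = q u}) (tauL (l.map fun u => (u, q u)) z) := by
      refine (hz.mono Set.subset_union_left).tauL ?_
      intro p hp
      obtain ⟨w, hw, rfl⟩ := List.mem_map.1 hp
      exact ⟨Or.inl (hA w (List.mem_cons_of_mem _ hw)), Or.inr ⟨w, hw, rfl⟩⟩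
    have ih' := ih (P ∪ {u}) hnd' (fun w hw => hA w (List.mem_cons_of_mem _ hw))
      (fun w hw => hR w (List.mem_cons_of_mem _ hw))
      (fun w hw => hqA w (List.mem_cons_of_mem _ hw))
      (by
        rintro p (hp | hp)
        · rcases hP p hp with h1 | ⟨h1, h2⟩
          · exact Or.inl h1
          · exact Or.inr ⟨h1, fun h3 => h2 (List.mem_cons_of_mem _ h3)⟩
        · have : p = u := hp
          subst this
          exact Or.inr ⟨huA, hul⟩)
      (by
        intro w hw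
        obtain ⟨C, h1, h2, h3, h4⟩ := hC w (List.mem_cons_of_mem _ hw)
        exact ⟨C, h1, h2, h3, fun w' hw' => h4 w' (List.mem_cons_of_mem _ hw')⟩)
      (by
        refine h.mono (J_mono ?_)
        rintro a b ⟨h1, h2⟩
        refine ⟨h1.mono ?_, h2⟩
        rintro x ((hx | hx) | hx)
        · exact Or.inl hx
        · have : x = u := hx
          subst this
          exact Or.inr List.mem_cons_self
        · exact Or.inr (List.mem_cons_of_mem _ hx))
    change NB _ (tau u (q u) (tauL (l.map fun u => (u, q u)) z))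
    refine leaf (r := restr (via adj P) (A' ∪ {x | ∃ w ∈ u :: l, x = q w}))
      (fun a b h => ⟨h.1.symm hs, h.2.2, h.2.1⟩) huq ?_ ?_ ?_
    · rintro b ⟨⟨c, hc1, hc2⟩, -, hb⟩
      have hcC : c ∈ C := by
        clear hc2
        induction hc1 with
        | refl => exact hC1
        | @tail x y _ hxy ihx =>
          rcases hP y hxy.2 with h1 | ⟨h1, h2⟩
          · exact hC2 x ihx y hxy.1 h1
          · have : y = u := hC3 x ihx y h1 hxy.1
            exact absurd (this ▸ List.mem_cons_self) h2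
      rcases hb with hb | ⟨w, hw, rfl⟩
      · exact Or.inl (hC3 c hcC b hb hc2)
      · right
        rw [hC4 w hw (hC2 c hcC _ hc2 (hR w hw))]
    · refine hsupp.mono ?_
      rintro x (hx | ⟨w, hw, rfl⟩)
      · intro h; exact hquA (h ▸ hx)
      · exact hql w hw
    · refine ih'.mono (J_mono ?_)
      have hW : ∀ a, a ∈ A' ∪ {x | ∃ w ∈ u :: l, x = q w} → a ≠ q u →
          a ∈ A' ∪ {x | ∃ w ∈ l, x = q w} := by
        rintro a (ha | ⟨w, hw, rfl⟩) hne
        · exact Or.inl ha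
        · rcases List.mem_cons.1 hw with rfl | hw
          · exact absurd rfl hne
          · exact Or.inr ⟨w, hw, rfl⟩
      rintro a b (⟨⟨h1, h2, h3⟩, h4, h5⟩ | ⟨⟨⟨h1, h2, h3⟩, h4, h5⟩, ⟨⟨h6, h7, h8⟩, h9, h10⟩⟩)
      · exact ⟨h1.mono Set.subset_union_left, hW a h2 h4, hW b h3 h5⟩
      · refine ⟨?_, hW a h2 h4, hW b h8 h10⟩
        obtain ⟨c, hc1, hc2⟩ := h1
        obtain ⟨d, hd1, hd2⟩ := h6
        refine ⟨d, ?_, hd2⟩
        refine Relation.ReflTransGen.trans
          (Relation.ReflTransGen.tail (hc1.mono Set.subset_union_left) ⟨hc2, ?_⟩)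
          (hd1.mono Set.subset_union_left)
        exact Or.inr rfl

/-- **The main recursion.** -/
theorem lemL {adj : V → V → Prop} (hs : ∀ a b, adj a b → adj b a) :
    ∀ n : ℕ, ∀ R Y : Finset V, R.card = n → Y ⊆ R →
      (∀ v ∈ R, ∃ y ∈ Y, conn adj (R : Set V) v y) →
      ∃ (l : List (V × V)) (Q : Finset V),
        (∀ p ∈ l, adj p.1 p.2 ∧ p.1 ∈ R ∧ p.2 ∈ R) ∧ (l.map Prod.fst).Nodup ∧ Q ⊆ Y ∧
        (∀ v ∈ R, ∃ q ∈ Q, conn adj (R : Set V) v q) ∧
        (∀ v ∈ R, v ∈ Y ∨ v ∈ l.map Prod.fst ∨ ∃ e ∈ l.map Prod.fst, adj v e) ∧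
        (∀ e ∈ l.map Prod.fst, ∃ y ∈ l.map Prod.fst, y ∈ Y ∧
          conn adj {x | x ∈ l.map Prod.fst} e y) ∧
        (∀ A : Set V, (∀ a ∈ A, a ∉ R) → (∀ a ∈ A, ∀ v ∈ R, adj a v → v ∈ Y) →
          ∀ z : Finset (V ⊕ₗ V) → MvPolynomial (V ⊕ₗ V) K, Supp (A ∪ (Q : Set V)) z →
          NB (J K (restr (via adj {x | x ∈ l.map Prod.fst}) (A ∪ (Q : Set V)))) z →
          NB (J K (restr adj (A ∪ (R : Set V)))) (tauL l z)) := by
  classical
  intro n
  induction n using Nat.strong_induction_on with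
  | _ n ih =>
  intro R Y hn hYR hconn
  by_cases hR : R = ∅
  · subst hR
    have hY : Y = ∅ := Finset.subset_empty.1 hYR
    subst hY
    refine ⟨[], ∅, by simp, by simp, by simp, by simp, by simp, by simp, ?_⟩
    intro A _ _ z hz h
    refine h.mono (J_mono ?_)
    rintro a b ⟨h1, h2⟩
    exact ⟨⟨a, Relation.ReflTransGen.refl, h1⟩, h2⟩
  obtain ⟨v0, hv0⟩ := Finset.nonempty_iff_ne_empty.2 hR
  obtain ⟨y0, hy0, -⟩ := hconn v0 hv0
  set R' := R \ Y with hR'
  have hR'R : R' ⊆ R := Finset.sdiff_subset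
  have hcard : R'.card < n := by
    rw [← hn]
    refine Finset.card_lt_card ⟨hR'R, fun h => ?_⟩
    have := h (hYR hy0)
    rw [hR', Finset.mem_sdiff] at this
    exact this.2 hy0
  let T : Finset V → Prop := fun U =>
    ∀ v ∈ R', ∃ w, conn adj (R' : Set V) v w ∧ ∃ u ∈ U, adj w u
  have hTY : T Y := by
    intro v hv
    obtain ⟨y, hy, hvy⟩ := hconn v (hR'R hv)
    induction hvy using Relation.ReflTransGen.head_induction_on with
    | refl => exact absurd hy (Finset.mem_sdiff.1 hv).2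
    | @head a k hak _ ihk =>
      by_cases hk : k ∈ Y
      · exact ⟨a, Relation.ReflTransGen.refl, k, hk, hak.1⟩
      · have hk' : k ∈ R' := Finset.mem_sdiff.2 ⟨hak.2, hk⟩
        obtain ⟨w, hw1, hw2⟩ := ihk hk'
        exact ⟨w, Relation.ReflTransGen.head ⟨hak.1, hk'⟩ hw1, hw2⟩
  obtain ⟨U, hUmem, hUmin⟩ := Finset.exists_min_image (Y.powerset.filter T) Finset.card
    ⟨Y, Finset.mem_filter.2 ⟨Finset.mem_powerset_self Y, hTY⟩⟩
  rw [Finset.mem_filter, Finset.mem_powerset] at hUmem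
  obtain ⟨hUY, hTU⟩ := hUmem
  have hmin : ∀ u ∈ U, ¬ T (U.erase u) := by
    intro u hu hT
    have h1 := hUmin (U.erase u) (Finset.mem_filter.2
      ⟨Finset.mem_powerset.2 ((Finset.erase_subset u U).trans hUY), hT⟩)
    have h2 := Finset.card_erase_lt_of_mem hu
    omega
  set Y' := R'.filter (fun v => ∃ u ∈ U, adj u v) with hY'
  obtain ⟨l', Q', h1, h2, h3, h4, h5, h6, h7⟩ := ih R'.card hcard R' Y' rfl
    (Finset.filter_subset _ _) (by
      intro v hv
      obtain ⟨w, hw1, u, hu, hw2⟩ := hTU v hv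
      refine ⟨w, Finset.mem_filter.2 ⟨?_, u, hu, hs _ _ hw2⟩, hw1⟩
      exact hw1.mem (P := (R' : Set V)) hv)
  have hq : ∀ u ∈ U, ∃ q ∈ Q', adj u q ∧
      ∀ w, conn adj (R' : Set V) q w → ∀ u' ∈ U, adj w u' → u' = u := by
    intro u hu
    have h := hmin u hu
    simp only [T] at h
    push Not at h
    obtain ⟨c, hc, hc2⟩ := h
    obtain ⟨q, hq, hcq⟩ := h4 c hc
    have hpriv : ∀ w, conn adj (R' : Set V) q w → ∀ u' ∈ U, adj w u' → u' = u := by
      intro w hw u' hu' hadj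
      by_contra hne
      exact hc2 w (hcq.trans hw) u' (Finset.mem_erase.2 ⟨hne, hu'⟩) hadj
    refine ⟨q, hq, ?_, hpriv⟩
    obtain ⟨_, u', hu', hadj⟩ := Finset.mem_filter.1 (h3 hq)
    have := hpriv q Relation.ReflTransGen.refl u' hu' (hs _ _ hadj)
    rw [← this]; exact hadj
  choose! q hq1 hq2 hq3 using hq
  have hUR : U ⊆ R := hUY.trans hYR
  have hR'Y : ∀ x ∈ R', x ∉ Y := fun x hx => (Finset.mem_sdiff.1 hx).2
  have hqR' : ∀ u ∈ U, q u ∈ R' := fun u hu => Finset.filter_subset _ _ (h3 (hq1 u hu))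
  set lU := U.toList.map (fun u => (u, q u)) with hlU
  have hmapU : lU.map Prod.fst = U.toList := by
    rw [hlU, List.map_map]
    exact List.map_id _
  set Q := Y.filter (fun y => y ∈ U ∨ ∀ w ∈ R', ¬ adj w y) with hQ
  have hUQ : U ⊆ Q := fun u hu => Finset.mem_filter.2 ⟨hUY hu, Or.inl hu⟩
  have hE'R' : ∀ e ∈ l'.map Prod.fst, e ∈ R' := by
    intro e he
    obtain ⟨p, hp, rfl⟩ := List.mem_map.1 he
    exact (h1 p hp).2.1
  have hmem : ∀ x, x ∈ (l' ++ lU).map Prod.fst ↔ x ∈ l'.map Prod.fst ∨ x ∈ U := by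
    intro x
    rw [List.map_append, List.mem_append, hmapU, Finset.mem_toList]
  refine ⟨l' ++ lU, Q, ?_, ?_, Finset.filter_subset _ _, ?_, ?_, ?_, ?_⟩
  · intro p hp
    rcases List.mem_append.1 hp with hp | hp
    · exact ⟨(h1 p hp).1, hR'R (h1 p hp).2.1, hR'R (h1 p hp).2.2⟩
    · obtain ⟨u, hu, rfl⟩ := List.mem_map.1 hp
      rw [Finset.mem_toList] at hu
      exact ⟨hq2 u hu, hUR hu, hR'R (hqR' u hu)⟩
  · rw [List.map_append, hmapU, List.nodup_append]
    refine ⟨h2, U.nodup_toList, ?_⟩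
    intro a ha b hb hab
    rw [Finset.mem_toList] at hb
    exact hR'Y a (hE'R' a ha) (hUY (hab ▸ hb))
  · intro v hv
    obtain ⟨y, hy, hvy⟩ := hconn v hv
    by_cases hyQ : y ∈ Q
    · exact ⟨y, hyQ, hvy⟩
    · have : ∃ w ∈ R', adj w y := by
        by_contra hcon
        push Not at hcon
        exact hyQ (Finset.mem_filter.2 ⟨hy, Or.inr hcon⟩)
      obtain ⟨w, hw, hwy⟩ := this
      obtain ⟨w', hw', u, hu, hadj⟩ := hTU w hw
      refine ⟨u, hUQ hu, ?_⟩
      refine Relation.ReflTransGen.tail (b := w') ?_ ⟨hadj, hUR hu⟩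
      refine Relation.ReflTransGen.trans (hvy.tail ⟨hs _ _ hwy, hR'R hw⟩) ?_
      exact hw'.mono (by exact_mod_cast hR'R)
  · intro v hv
    by_cases hvY : v ∈ Y
    · exact Or.inl hvY
    right
    have hvR' : v ∈ R' := Finset.mem_sdiff.2 ⟨hv, hvY⟩
    rcases h5 v hvR' with h | h | ⟨e, he, hadj⟩
    · obtain ⟨_, u, hu, hadj⟩ := Finset.mem_filter.1 h
      exact Or.inr ⟨u, (hmem u).2 (Or.inr hu), hs _ _ hadj⟩
    · exact Or.inl ((hmem v).2 (Or.inl h))
    · exact Or.inr ⟨e, (hmem e).2 (Or.inl he), hadj⟩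
  · intro e he
    rcases (hmem e).1 he with he | he
    · obtain ⟨y, hy, hyY', hey⟩ := h6 e he
      obtain ⟨_, u, hu, hadj⟩ := Finset.mem_filter.1 hyY'
      refine ⟨u, (hmem u).2 (Or.inr hu), hUY hu, ?_⟩
      refine Relation.ReflTransGen.tail (b := y) ?_ ⟨hs _ _ hadj, (hmem u).2 (Or.inr hu)⟩
      exact hey.mono fun x hx => (hmem x).2 (Or.inl hx)
    · exact ⟨e, (hmem e).2 (Or.inr he), hUY he, Relation.ReflTransGen.refl⟩
  · intro A hA hAY z hz hNB
    rw [tauL_append]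
    have hQY : Q ⊆ Y := Finset.filter_subset _ _
    have hQR' : ∀ x ∈ Q, x ∉ R' := fun x hx h => hR'Y x h (hQY hx)
    have hA'R' : ∀ a ∈ A ∪ (Q : Set V), a ∉ R' := by
      rintro a (ha | ha)
      · exact fun h => hA a ha (hR'R h)
      · exact hQR' a ha
    -- step 0
    refine NB.restr (W := (A ∪ (Q : Set V)) ∪ (R' : Set V)) ?_ ?_
    · refine Supp.tauL (Supp.tauL (hz.mono Set.subset_union_left) ?_) ?_
      · intro p hp
        obtain ⟨u, hu, rfl⟩ := List.mem_map.1 hp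
        rw [Finset.mem_toList] at hu
        exact ⟨Or.inl (Or.inr (hUQ hu)), Or.inr (hqR' u hu)⟩
      · intro p hp
        exact ⟨Or.inr (h1 p hp).2.1, Or.inr (h1 p hp).2.2⟩
    refine NB.mono (J_mono (r' := restr adj ((A ∪ (Q : Set V)) ∪ (R' : Set V))) ?_) ?_
    · rintro a b ⟨h8, h9⟩
      exact ⟨h8.1, h9⟩
    -- step 1
    have hsuppU : Supp ((A ∪ (Q : Set V)) ∪ {x | ∃ u ∈ U.toList, x = q u}) (tauL lU z) := by
      refine (hz.mono Set.subset_union_left).tauL ?_
      intro p hp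
      obtain ⟨u, hu, rfl⟩ := List.mem_map.1 hp
      exact ⟨Or.inl (Or.inr (hUQ (Finset.mem_toList.1 hu))), Or.inr ⟨u, hu, rfl⟩⟩
    refine h7 (A ∪ (Q : Set V)) hA'R' ?_ (tauL lU z) ?_ ?_
    · rintro a (ha | ha) v hv hadj
      · exact absurd (hAY a ha v (hR'R hv) hadj) (hR'Y v hv)
      · obtain ⟨-, ha2⟩ := Finset.mem_filter.1 ha
        rcases ha2 with ha2 | ha2
        · exact Finset.mem_filter.2 ⟨hv, a, ha2, hadj⟩
        · exact absurd (hs _ _ hadj) (ha2 v hv)
    · refine hsuppU.mono ?_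
      rintro x (hx | ⟨u, hu, rfl⟩)
      · exact Or.inl hx
      · exact Or.inr (hq1 u (Finset.mem_toList.1 hu))
    -- step 2
    refine NB.restr (W := (A ∪ (Q : Set V)) ∪ {x | ∃ u ∈ U.toList, x = q u}) hsuppU ?_
    refine NB.mono (J_mono (r' := restr (via adj {x | x ∈ l'.map Prod.fst})
      ((A ∪ (Q : Set V)) ∪ {x | ∃ u ∈ U.toList, x = q u})) ?_) ?_
    · rintro a b ⟨h8, h9⟩
      exact ⟨h8.1, h9⟩
    -- step 3
    refine process hs (A' := A ∪ (Q : Set V)) (R' := (R' : Set V)) hz U.toList _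
      U.nodup_toList ?_ ?_ ?_ ?_ ?_ ?_
    · intro u hu
      exact Or.inr (hUQ (Finset.mem_toList.1 hu))
    · intro u hu
      exact hqR' u (Finset.mem_toList.1 hu)
    · intro u hu h
      exact hA'R' _ h (hqR' u (Finset.mem_toList.1 hu))
    · intro p hp
      exact Or.inl (hE'R' p hp)
    · intro u hu
      rw [Finset.mem_toList] at hu
      refine ⟨{x | conn adj (R' : Set V) (q u) x}, Relation.ReflTransGen.refl, ?_, ?_, ?_⟩
      · intro c hc x hcx hx
        exact Relation.ReflTransGen.tail hc ⟨hcx, hx⟩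
      · rintro c hc x (hx | hx) hcx
        · have hcR' : c ∈ R' := conn.mem (P := (R' : Set V)) (hqR' u hu) hc
          exact absurd (hAY x hx c (hR'R hcR') (hs _ _ hcx)) (hR'Y c hcR')
        · have hcR' : c ∈ R' := conn.mem (P := (R' : Set V)) (hqR' u hu) hc
          obtain ⟨-, hx2⟩ := Finset.mem_filter.1 hx
          rcases hx2 with hx2 | hx2
          · exact hq3 u hu c hc x hx2 hcx
          · exact absurd hcx (hx2 c hcR')
      · intro w hw hcw
        rw [Finset.mem_toList] at hw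
        exact (hq3 u hu _ hcw w hw (hs _ _ (hq2 w hw)))
    · refine hNB.mono (J_mono ?_)
      rintro a b ⟨h8, h9⟩
      refine ⟨h8.mono ?_, h9⟩
      rintro x (hx | hx)
      · exact (hmem x).2 (Or.inl hx)
      · exact (hmem x).2 (Or.inr (Finset.mem_toList.1 hx))

end BEI
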