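import Mathlib

/-!
# The Koszul complex in coordinates

Chains are functions `Finset σ → R`; the value at `L` is the coefficient of the exterior monomial
`e_L` (the product of the `e_s`, `s ∈ L`, in increasing order).
-/

namespace BEI

open Finset

variable {σ : Type*} [LinearOrder σ] {R : Type*} [CommRing R]

/-- the sign `(-1) ^ (number of elements of L below s)` -/
def sg (R : Type*) [CommRing R] (s : σ) (L : Finset σ) : R := (-1) ^ (L.filter (· < s)).card

/-- contraction with the dual basis vector `e_s^*` -/
def ann (s : σ) (f : Finset σ → R) : Finset σ → R := fun L =>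
  if s ∈ L then 0 else sg R s L * f (insert s L)

/-- multiplication by `e_s` from the left -/
def cre (s : σ) (f : Finset σ → R) : Finset σ → R := fun L =>
  if s ∈ L then sg R s (L.erase s) * f (L.erase s) else 0

theorem sg_mul_self (s : σ) (L : Finset σ) : sg R s L * sg R s L = 1 := by
  unfold sg
  rw [← mul_pow]; simp

theorem sg_insert_of_lt {s t : σ} {L : Finset σ} (h : s < t) (hs : s ∉ L) :
    sg R t (insert s L) = - sg R t L := by
  unfold sg
  rw [Finset.filter_insert, if_pos h, Finset.card_insert_of_notMem (by simp [hs]), pow_succ]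
  ring

theorem sg_insert_of_le {s t : σ} {L : Finset σ} (h : t ≤ s) :
    sg R t (insert s L) = sg R t L := by
  unfold sg
  rw [Finset.filter_insert, if_neg (not_lt.2 h)]

theorem sg_swap {s t : σ} {L : Finset σ} (h : s ≠ t) (hs : s ∉ L) (ht : t ∉ L) :
    sg R s L * sg R t (insert s L) = - (sg R t L * sg R s (insert t L)) := by
  rcases lt_or_gt_of_ne h with h | h
  · rw [sg_insert_of_lt h hs, sg_insert_of_le h.le]; ring
  · rw [sg_insert_of_lt h ht, sg_insert_of_le h.le]; ring

theorem ann_ann (s t : σ) (f : Finset σ → R) (L : Finset σ) :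
    ann s (ann t f) L = - ann t (ann s f) L := by
  unfold ann
  by_cases hs : s ∈ L
  · simp [hs]
  by_cases ht : t ∈ L
  · simp [ht]
  by_cases h : s = t
  · subst h; simp
  have h1 : t ∉ insert s L := by simp [ht, Ne.symm h]
  have h2 : s ∉ insert t L := by simp [hs, h]
  rw [if_neg hs, if_neg ht, if_neg h1, if_neg h2, ← mul_assoc, ← mul_assoc, sg_swap h hs ht,
    Finset.insert_comm]
  ring

theorem ann_ann_self (s : σ) (f : Finset σ → R) (L : Finset σ) : ann s (ann s f) L = 0 := by
  unfold ann
  by_cases hs : s ∈ L <;> simp [hs]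

theorem ann_cre_of_ne {s t : σ} (h : s ≠ t) (f : Finset σ → R) (L : Finset σ) :
    ann s (cre t f) L = - cre t (ann s f) L := by
  unfold ann cre
  by_cases hs : s ∈ L
  · by_cases ht : t ∈ L
    · have : s ∈ L.erase t := by simp [hs, h]
      simp [hs, this]
    · simp [hs, ht]
  by_cases ht : t ∈ L
  · have h1 : t ∈ insert s L := by simp [ht]
    have h2 : s ∉ L.erase t := by simp [hs]
    simp only [if_neg hs, if_pos h1, if_pos ht, if_neg h2]
    obtain ⟨M, hM, rfl⟩ : ∃ M, t ∉ M ∧ insert t M = L :=
      ⟨L.erase t, by simp, Finset.insert_erase ht⟩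
    have hsM : s ∉ M := fun h' => hs (Finset.mem_insert_of_mem h')
    have e1 : (insert s (insert t M)).erase t = insert s M := by
      rw [Finset.insert_comm, Finset.erase_insert (by simp [hM, Ne.symm h])]
    rw [e1, Finset.erase_insert hM, ← mul_assoc, ← mul_assoc]
    have hk := sg_swap (R := R) h hsM hM
    have h3 := sg_mul_self (R := R) s (insert t M)
    have h4 := sg_mul_self (R := R) t (insert s M)
    -- sg s (t M) * sg t (s M) = - sg t M * sg s M
    have h5 : sg R s (insert t M) * sg R t (insert s M) = - (sg R t M * sg R s M) := by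
      rcases lt_or_gt_of_ne h with h | h
      · rw [sg_insert_of_lt h hsM, sg_insert_of_le h.le]; ring
      · rw [sg_insert_of_lt h hM, sg_insert_of_le h.le]; ring
    rw [h5]; ring
  · have h1 : t ∉ insert s L := by simp [ht, Ne.symm h]
    simp [ht, h1, hs]

theorem ann_cre_self (s : σ) (f : Finset σ → R) (L : Finset σ) :
    ann s (cre s f) L + cre s (ann s f) L = f L := by
  unfold ann cre
  by_cases hs : s ∈ L
  · have h1 : s ∉ L.erase s := by simp
    simp only [if_pos hs, if_neg h1, Finset.insert_erase hs]
    rw [← mul_assoc, sg_mul_self]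
    simp
  · simp only [if_neg hs, if_pos (Finset.mem_insert_self s L), Finset.erase_insert hs]
    rw [← mul_assoc, sg_mul_self]
    simp

variable [Fintype σ]

/-- the Koszul differential of the family `a` -/
def bd (a : σ → R) (f : Finset σ → R) : Finset σ → R := fun L => ∑ s, a s * ann s f L

theorem ann_add (s : σ) (f g : Finset σ → R) (L : Finset σ) :
    ann s (fun M => f M + g M) L = ann s f L + ann s g L := by
  unfold ann
  split_ifs <;> ring

theorem ann_mul (s : σ) (c : R) (f : Finset σ → R) (L : Finset σ) :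
    ann s (fun M => c * f M) L = c * ann s f L := by
  unfold ann
  split_ifs <;> ring

theorem ann_neg (s : σ) (f : Finset σ → R) (L : Finset σ) :
    ann s (fun M => - f M) L = - ann s f L := by
  unfold ann
  split_ifs <;> ring

theorem cre_add (s : σ) (f g : Finset σ → R) (L : Finset σ) :
    cre s (fun M => f M + g M) L = cre s f L + cre s g L := by
  unfold cre
  split_ifs <;> ring

theorem cre_mul (s : σ) (c : R) (f : Finset σ → R) (L : Finset σ) :
    cre s (fun M => c * f M) L = c * cre s f L := by
  unfold cre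
  split_ifs <;> ring

theorem bd_add (a : σ → R) (f g : Finset σ → R) (L : Finset σ) :
    bd a (fun M => f M + g M) L = bd a f L + bd a g L := by
  unfold bd
  rw [← Finset.sum_add_distrib]
  exact Finset.sum_congr rfl fun s _ => by rw [ann_add]; ring

theorem bd_mul (a : σ → R) (c : R) (f : Finset σ → R) (L : Finset σ) :
    bd a (fun M => c * f M) L = c * bd a f L := by
  unfold bd
  rw [Finset.mul_sum]
  exact Finset.sum_congr rfl fun s _ => by rw [ann_mul]; ring

theorem bd_neg (a : σ → R) (f : Finset σ → R) (L : Finset σ) :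
    bd a (fun M => - f M) L = - bd a f L := by
  unfold bd
  rw [← Finset.sum_neg_distrib]
  exact Finset.sum_congr rfl fun s _ => by rw [ann_neg]; ring

theorem bd_sub (a : σ → R) (f g : Finset σ → R) (L : Finset σ) :
    bd a (fun M => f M - g M) L = bd a f L - bd a g L := by
  have := bd_add a f (fun M => - g M) L
  rw [bd_neg] at this
  rw [sub_eq_add_neg, ← this]
  simp only [sub_eq_add_neg]

theorem ann_sum (s : σ) {ι : Type*} (T : Finset ι) (f : ι → Finset σ → R) (L : Finset σ) :
    ann s (fun M => ∑ i ∈ T, f i M) L = ∑ i ∈ T, ann s (f i) L := by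
  unfold ann
  split_ifs
  · simp
  · rw [Finset.mul_sum]

theorem bd_bd (a : σ → R) (f : Finset σ → R) (L : Finset σ) : bd a (bd a f) L = 0 := by
  have h1 : bd a (bd a f) L = ∑ p : σ × σ, a p.1 * a p.2 * ann p.1 (ann p.2 f) L := by
    rw [Fintype.sum_prod_type]
    unfold bd
    refine Finset.sum_congr rfl fun s _ => ?_
    rw [show ann s (fun L => ∑ t, a t * ann t f L) L = ∑ t, ann s (fun M => a t * ann t f M) L from
      ann_sum s Finset.univ (fun t M => a t * ann t f M) L, Finset.mul_sum]
    refine Finset.sum_congr rfl fun t _ => ?_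
    rw [ann_mul]; ring
  rw [h1]
  refine Finset.sum_involution (fun p _ => (p.2, p.1)) ?_ ?_ ?_ ?_
  · rintro ⟨s, t⟩ -
    simp only
    rw [ann_ann s t]; ring
  · rintro ⟨s, t⟩ - h
    intro h2
    apply h
    simp only [Prod.mk.injEq] at h2
    obtain ⟨rfl, -⟩ := h2
    simp only [ann_ann_self, mul_zero]
  · rintro ⟨s, t⟩ -; exact Finset.mem_univ _
  · rintro ⟨s, t⟩ -; rfl

theorem bd_ann (a : σ → R) (t : σ) (f : Finset σ → R) (L : Finset σ) :
    bd a (ann t f) L = - ann t (bd a f) L := by
  unfold bd
  rw [show ann t (fun L => ∑ s, a s * ann s f L) L = ∑ s, ann t (fun M => a s * ann s f M) L from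
    ann_sum t Finset.univ (fun s M => a s * ann s f M) L, ← Finset.sum_neg_distrib]
  refine Finset.sum_congr rfl fun s _ => ?_
  rw [ann_mul, ann_ann s t]; ring

theorem cre_sum (s : σ) {ι : Type*} (T : Finset ι) (f : ι → Finset σ → R) (L : Finset σ) :
    cre s (fun M => ∑ i ∈ T, f i M) L = ∑ i ∈ T, cre s (f i) L := by
  unfold cre
  split_ifs
  · rw [Finset.mul_sum]
  · simp

theorem bd_cre (a : σ → R) (t : σ) (f : Finset σ → R) (L : Finset σ) :
    bd a (cre t f) L = a t * f L - cre t (bd a f) L := by
  have h2 : cre t (bd a f) L = ∑ s, a s * cre t (ann s f) L := by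
    unfold bd
    rw [show cre t (fun L => ∑ s, a s * ann s f L) L = ∑ s, cre t (fun M => a s * ann s f M) L from
      cre_sum t Finset.univ (fun s M => a s * ann s f M) L]
    exact Finset.sum_congr rfl fun s _ => cre_mul _ _ _ _
  rw [h2]
  unfold bd
  rw [eq_sub_iff_add_eq, ← Finset.sum_add_distrib, Finset.sum_eq_single t]
  · rw [← mul_add, ann_cre_self]
  · intro s _ hs
    rw [ann_cre_of_ne hs]; ring
  · intro h; exact absurd (Finset.mem_univ t) h

end BEI
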