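import Pool.Agent.Hhelper18.BEI.Comb

/-!
# The local v-number at the cut-set-free prime is witnessed by a Koszul class
-/

namespace BEI

open MvPolynomial

attribute [local instance 10000] LinearOrder.toDecidableEq

variable {V : Type*} {K : Type*} [Field K]

open scoped Classical in
/-- the vacuum chain -/
noncomputable def vac (K : Type*) [Field K] (V : Type*) :
    Finset (V ⊕ₗ V) → MvPolynomial (V ⊕ₗ V) K := fun L => if L = ∅ then 1 else 0

theorem vac_ne {L : Finset (V ⊕ₗ V)} (h : L ≠ ∅) : vac K V L = 0 := if_neg h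

theorem vac_empty : vac K V ∅ = 1 := if_pos rfl

theorem supp_vac (W : Set V) : Supp W (vac K V) := by
  intro L
  by_cases hL : L = ∅
  · subst hL
    rw [res_pos (by simp), vac_empty, map_one]
  · by_cases h : ∀ s ∈ L, vx s ∈ W
    · rw [res_pos h, vac_ne hL, map_zero]
    · rw [res_neg h, vac_ne hL]

theorem constantCoeff_J {r : V → V → Prop} {p : MvPolynomial (V ⊕ₗ V) K} (hp : p ∈ J K r) :
    constantCoeff p = 0 := by
  have : J K r ≤ RingHom.ker (constantCoeff (σ := V ⊕ₗ V) (R := K)) := by
    rw [J, Ideal.span_le]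
    rintro q ⟨i, j, -, rfl⟩
    rw [SetLike.mem_coe, RingHom.mem_ker]
    unfold minor
    simp
  exact (RingHom.mem_ker).1 (this hp)

theorem conn.reverse {adj : V → V → Prop} (hs : ∀ a b, adj a b → adj b a) {P : Set V} {a b : V}
    (h : conn adj P a b) : conn adj (P ∪ {a}) b a := by
  have key : conn adj (P ∪ {a}) b a ∧ (b = a ∨ b ∈ P) := by
    induction h with
    | refl => exact ⟨Relation.ReflTransGen.refl, Or.inl rfl⟩
    | @tail c b _ hcb ih =>
      refine ⟨Relation.ReflTransGen.head ⟨hs _ _ hcb.1, ?_⟩ ih.1, Or.inr hcb.2⟩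
      rcases ih.2 with h | h
      · exact Or.inr h
      · exact Or.inl h
  exact key.1

theorem prod_mul_mem {s : V → V → Prop} [Fintype V] (hs : ∀ a b, s a b → s b a)
    (ht : ∀ a b c, s a b → s b c → s a c) {l : List V} {g : MvPolynomial (V ⊕ₗ V) K}
    (h : (l.map fun e => (X (xv e) : MvPolynomial (V ⊕ₗ V) K)).prod * g ∈ J K s) :
    g ∈ J K s := by
  induction l with
  | nil => simpa using h
  | cons u l ih =>
    apply ih
    rw [List.map_cons, List.prod_cons, mul_assoc] at h
    refine J_mono ?_ (colon hs u h)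
    rintro a b (h | ⟨h1, h2⟩)
    · exact h
    · exact ht _ _ _ h1 h2

theorem prod_homog (l : List V) :
    ((l.map fun e => (X (xv e) : MvPolynomial (V ⊕ₗ V) K)).prod).IsHomogeneous l.length := by
  induction l with
  | nil => simpa using isHomogeneous_one (V ⊕ₗ V) K
  | cons u l ih =>
    rw [List.map_cons, List.prod_cons, List.length_cons, add_comm]
    exact (isHomogeneous_X _ _).mul ih

theorem prod_eq_monomial (l : List V) :
    (l.map fun e => (X (xv e) : MvPolynomial (V ⊕ₗ V) K)).prod =
      monomial ((l.map fun e => (Finsupp.single (xv e) 1 : (V ⊕ₗ V) →₀ ℕ)).sum) 1 := by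
  induction l with
  | nil => simp
  | cons u l ih =>
    rw [List.map_cons, List.prod_cons, List.map_cons, List.sum_cons, ih, X, monomial_mul, one_mul]

theorem sum_single_pos (l : List V) {d : V} (hd : d ∈ l) :
    0 < ((l.map fun e => (Finsupp.single (xv e) 1 : (V ⊕ₗ V) →₀ ℕ)).sum) (xv d) := by
  classical
  induction l with
  | nil => simp at hd
  | cons u l ih =>
    rw [List.map_cons, List.sum_cons, Finsupp.add_apply]
    rcases List.mem_cons.1 hd with rfl | hd
    · rw [Finsupp.single_eq_same]; omega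
    · have := ih hd; omega

variable [LinearOrder V]

theorem tauL_supp (l : List (V × V)) {L : Finset (V ⊕ₗ V)} (h : tauL l (vac K V) L ≠ 0) :
    L.card = l.length := by
  induction l generalizing L with
  | nil =>
    by_contra hL
    exact h (vac_ne (by rintro rfl; exact hL rfl))
  | cons p l ih =>
    have hne : ∀ s, cre s (tauL l (vac K V)) L ≠ 0 → L.card = l.length + 1 := by
      intro s hs
      unfold cre at hs
      by_cases hsL : s ∈ L
      · rw [if_pos hsL] at hs
        have := ih (right_ne_zero_of_mul hs)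
        rw [← this, Finset.card_erase_of_mem hsL]
        have := Finset.card_pos.2 ⟨s, hsL⟩
        omega
      · rw [if_neg hsL] at hs; exact absurd rfl hs
    change tau p.1 p.2 (tauL l (vac K V)) L ≠ 0 at h
    rw [List.length_cons]
    by_contra hcon
    apply h
    have h0 : ∀ s, cre s (tauL l (vac K V)) L = 0 := fun s => by
      by_contra h'; exact hcon (hne s h')
    unfold tau
    rw [h0, h0]; ring

theorem sg_homog (s : V ⊕ₗ V) (L : Finset (V ⊕ₗ V)) :
    (sg (MvPolynomial (V ⊕ₗ V) K) s L).IsHomogeneous 0 := by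
  unfold sg
  rcases neg_one_pow_eq_or (MvPolynomial (V ⊕ₗ V) K) (L.filter (· < s)).card with h | h <;> rw [h]
  · exact isHomogeneous_one _ _
  · exact (isHomogeneous_one (V ⊕ₗ V) K).neg

theorem tauL_homog (l : List (V × V)) (L : Finset (V ⊕ₗ V)) :
    (tauL l (vac K V) L).IsHomogeneous l.length := by
  induction l generalizing L with
  | nil =>
    by_cases hL : L = ∅
    · subst hL
      change (vac K V ∅).IsHomogeneous 0
      rw [vac_empty]; exact isHomogeneous_one _ _
    · change (vac K V L).IsHomogeneous 0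
      rw [vac_ne hL]; exact isHomogeneous_zero _ _ _
  | cons p l ih =>
    have hc : ∀ s, (cre s (tauL l (vac K V)) L).IsHomogeneous l.length := by
      intro s
      unfold cre
      split_ifs
      · have := (sg_homog (K := K) s (L.erase s)).mul (ih (L.erase s))
        rwa [zero_add] at this
      · exact isHomogeneous_zero _ _ _
    change (tau p.1 p.2 (tauL l (vac K V)) L).IsHomogeneous _
    rw [List.length_cons, add_comm]
    unfold tau
    exact ((isHomogeneous_X _ _).mul (hc _)).sub ((isHomogeneous_X _ _).mul (hc _))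

variable [Fintype V]

theorem nb_vac (r : V → V → Prop) : NB (J K r) (vac K V) := by
  intro β hβ
  have h := constantCoeff_J (hβ ∅)
  rw [map_sub, vac_empty, map_one] at h
  have h2 : constantCoeff (bd X β ∅) = (0 : K) := by
    unfold bd
    rw [map_sum]
    refine Finset.sum_eq_zero fun s _ => ?_
    rw [map_mul, constantCoeff_X, zero_mul]
  rw [h2, sub_zero] at h
  exact one_ne_zero h

theorem bd_vac (L : Finset (V ⊕ₗ V)) : bd X (vac K V) L = 0 := by
  unfold bd
  refine Finset.sum_eq_zero fun s _ => ?_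
  unfold ann
  split_ifs
  · rw [mul_zero]
  · rw [vac_ne (Finset.insert_ne_empty _ _), mul_zero, mul_zero]

theorem tauL_cycle {adj : V → V → Prop} (l : List (V × V)) (hl : ∀ p ∈ l, adj p.1 p.2)
    (L : Finset (V ⊕ₗ V)) : bd X (tauL l (vac K V)) L ∈ J K adj := by
  induction l generalizing L with
  | nil =>
    change bd X (vac K V) L ∈ J K adj
    rw [bd_vac]; exact Ideal.zero_mem _
  | cons p l ih =>
    change bd X (tau p.1 p.2 (tauL l (vac K V))) L ∈ J K adj
    rw [bd_tau]
    have ih' := ih fun p hp => hl p (List.mem_cons_of_mem _ hp)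
    refine Ideal.sub_mem _ (Ideal.mul_mem_right _ _ (minor_mem (hl p List.mem_cons_self))) ?_
    unfold tau
    exact Ideal.sub_mem _ (Ideal.mul_mem_left _ _ (cre_mem ih' _ _))
      (Ideal.mul_mem_left _ _ (cre_mem ih' _ _))

/-- The main statement: one number `k` is both the degree of a form `f` with
`J_G : f = P_∅(G)` and the position of a nonzero Koszul class. -/
theorem main (K : Type*) [Field K] (G : SimpleGraph V) :
    ∃ k : ℕ,
      (∃ f : MvPolynomial (V ⊕ₗ V) K, f.IsHomogeneous k ∧
        ∀ g, g * f ∈ J K G.Adj ↔ g ∈ J K G.Reachable) ∧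
      ∃ z : Finset (V ⊕ₗ V) → MvPolynomial (V ⊕ₗ V) K,
        (∀ L, z L ≠ 0 → L.card = k) ∧ (∀ L, (z L).IsHomogeneous k) ∧
        (∀ L, bd X z L ∈ J K G.Adj) ∧ NB (J K G.Adj) z := by
  classical
  have hs : ∀ a b, G.Adj a b → G.Adj b a := fun _ _ h => h.symm
  -- vertices in non-complete components
  set R : Finset V := Finset.univ.filter
    (fun v => ∃ a b, G.Reachable v a ∧ G.Reachable v b ∧ a ≠ b ∧ ¬ G.Adj a b) with hR
  have hRmem : ∀ v, v ∈ R ↔ ∃ a b, G.Reachable v a ∧ G.Reachable v b ∧ a ≠ b ∧ ¬ G.Adj a b := by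
    intro v; rw [hR, Finset.mem_filter]; simp
  have hRcl : ∀ v w, v ∈ R → G.Reachable v w → w ∈ R := by
    intro v w hv hvw
    obtain ⟨a, b, h1, h2, h3, h4⟩ := (hRmem v).1 hv
    exact (hRmem w).2 ⟨a, b, hvw.symm.trans h1, hvw.symm.trans h2, h3, h4⟩
  -- roots
  let ρ : V → V := fun v => (G.connectedComponentMk v).out
  have hρ : ∀ v, G.Reachable (ρ v) v := fun v =>
    SimpleGraph.ConnectedComponent.exact (Quot.out_eq (G.connectedComponentMk v))
  have hρc : ∀ v w, G.Reachable v w → ρ v = ρ w := by
    intro v w h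
    simp only [ρ]
    rw [SimpleGraph.ConnectedComponent.sound h]
  set Y : Finset V := R.filter (fun v => ρ v = v) with hY
  have hYR : Y ⊆ R := Finset.filter_subset _ _
  have hconnR : ∀ v w, v ∈ R → G.Reachable v w → conn G.Adj (R : Set V) v w := by
    intro v w hv hvw
    rw [SimpleGraph.reachable_iff_reflTransGen] at hvw
    induction hvw with
    | refl => exact Relation.ReflTransGen.refl
    | @tail b c hvb hbc ih =>
      refine Relation.ReflTransGen.tail ih ⟨hbc, ?_⟩
      refine hRcl v c hv ?_
      rw [SimpleGraph.reachable_iff_reflTransGen]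
      exact hvb.tail hbc
  have hconn : ∀ v ∈ R, ∃ y ∈ Y, conn G.Adj (R : Set V) v y := by
    intro v hv
    refine ⟨ρ v, Finset.mem_filter.2 ⟨hRcl v _ hv (hρ v).symm, hρc _ _ (hρ v)⟩, ?_⟩
    exact hconnR v _ hv (hρ v).symm
  obtain ⟨l, Q, h1, h2, -, -, h5, h6, h7⟩ := lemL (K := K) hs R.card R Y rfl hYR hconn
  have hreach : ∀ (P : Set V) a b, conn G.Adj P a b → G.Reachable a b := by
    intro P a b h
    rw [SimpleGraph.reachable_iff_reflTransGen]
    exact Relation.ReflTransGen.mono (fun _ _ h' => h'.1) _ _ h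
  have hYρ : ∀ y ∈ Y, ρ y = y := fun y hy => (Finset.mem_filter.1 hy).2
  -- the root of a non-complete component lies in `E`
  have hρE : ∀ v ∈ R, ρ v ∈ l.map Prod.fst := by
    intro v hv
    obtain ⟨a, b, hva, hvb, hab, -⟩ := (hRmem v).1 hv
    have : ∃ w, G.Reachable v w ∧ w ≠ ρ v := by
      by_cases ha : a = ρ v
      · exact ⟨b, hvb, fun h => hab (ha.trans h.symm)⟩
      · exact ⟨a, hva, ha⟩
    obtain ⟨w, hvw, hwρ⟩ := this
    have hwR := hRcl v w hv hvw
    have he : ∃ e ∈ l.map Prod.fst, G.Reachable v e := by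
      rcases h5 w hwR with h | h | ⟨e, he, hadj⟩
      · exact absurd ((hYρ w h).symm.trans (hρc _ _ hvw).symm) hwρ
      · exact ⟨w, h, hvw⟩
      · exact ⟨e, he, hvw.trans hadj.reachable⟩
    obtain ⟨e, he, hve⟩ := he
    obtain ⟨y, hyE, hyY, hey⟩ := h6 e he
    have : ρ v = y := by
      rw [hρc v y (hve.trans (hreach _ _ _ hey)), hYρ y hyY]
    rw [this]; exact hyE
  have hvρ : ∀ v ∈ R, conn G.Adj {x | x ∈ l.map Prod.fst} v (ρ v) := by
    intro v hv
    rcases h5 v hv with h | h | ⟨e, he, hadj⟩
    · rw [hYρ v h]; exact Relation.ReflTransGen.refl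
    · obtain ⟨y, hyE, hyY, hvy⟩ := h6 v h
      have : ρ v = y := by rw [hρc v y (hreach _ _ _ hvy), hYρ y hyY]
      rw [this]; exact hvy
    · obtain ⟨y, hyE, hyY, hey⟩ := h6 e he
      have : ρ v = y := by
        rw [hρc v y (hadj.reachable.trans (hreach _ _ _ hey)), hYρ y hyY]
      rw [this]; exact Relation.ReflTransGen.head ⟨hadj, he⟩ hey
  set E := l.map Prod.fst with hE
  set f := (E.map fun e => (X (xv e) : MvPolynomial (V ⊕ₗ V) K)).prod with hf
  have hElen : E.length = l.length := List.length_map _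
  refine ⟨l.length, ⟨f, hElen ▸ prod_homog E, fun g => ⟨fun hg => ?_, fun hg => ?_⟩⟩,
    tauL l (vac K V), fun L hL => tauL_supp l hL, tauL_homog l,
    tauL_cycle l fun p hp => (h1 p hp).1, ?_⟩
  · refine prod_mul_mem (s := G.Reachable) (l := E) (fun _ _ h => h.symm)
      (fun _ _ _ h h' => h.trans h') ?_
    rw [mul_comm]
    exact J_mono (fun _ _ h => SimpleGraph.Adj.reachable h) hg
  · have hle : J K G.Reachable ≤ (J K G.Adj).colon (Ideal.span {f}) := by
      rw [J, Ideal.span_le]
      rintro p ⟨v, w, hvw, rfl⟩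
      rw [SetLike.mem_coe, Submodule.mem_colon]
      intro p hp
      obtain ⟨c, rfl⟩ := Ideal.mem_span_singleton'.1 hp
      rw [smul_eq_mul, show minor K v w * (c * f) = c * (f * minor K v w) by ring]
      refine Ideal.mul_mem_left _ _ ?_
      by_cases hvR : v ∈ R
      · have hwR := hRcl v w hvR hvw
        have hc : conn G.Adj ({x | x ∈ E} ∪ {w}) v w := by
          refine Relation.ReflTransGen.trans ((hvρ v hvR).mono Set.subset_union_left) ?_
          rw [hρc v w hvw]
          exact (hvρ w hwR).reverse hs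
        rw [hf, prod_eq_monomial]
        refine transport hc _ ?_
        rintro d (hd | hd)
        · right; right
          have := sum_single_pos E hd
          omega
        · exact Or.inr (Or.inl hd)
      · have hadj : v = w ∨ G.Adj v w := by
          by_contra hcon
          push Not at hcon
          exact hvR ((hRmem v).2 ⟨v, w, SimpleGraph.Reachable.refl v, hvw, hcon.1, hcon.2⟩)
        rcases hadj with rfl | hadj
        · rw [minor_self, mul_zero]; exact Ideal.zero_mem _
        · exact Ideal.mul_mem_left _ _ (minor_mem hadj)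
    have := (Submodule.mem_colon.1 (hle hg)) f (Ideal.mem_span_singleton_self f)
    rwa [smul_eq_mul] at this
  · refine NB.restr (W := ((∅ : Set V) ∪ (R : Set V))) ?_ ?_
    · refine Supp.tauL (supp_vac _) ?_
      intro p hp
      exact ⟨Or.inr (h1 p hp).2.1, Or.inr (h1 p hp).2.2⟩
    · exact h7 ∅ (by simp) (by simp) _ (supp_vac _) (nb_vac _)

end BEI
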