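import Pool.Agent.Hhelper18.BEI.Koszul
import Pool.Agent.Hhelper18.BEI.Colon

/-!
# Koszul classes over binomial edge ideals: restriction and the leaf step
-/

namespace BEI

open MvPolynomial

attribute [local instance 10000] LinearOrder.toDecidableEq

variable {V : Type*} {K : Type*} [Field K]

/-- the vertex of a variable -/
def vx (s : V ⊕ₗ V) : V := Sum.elim id id (ofLex s)

@[simp] theorem vx_xv (i : V) : vx (xv i) = i := rfl

@[simp] theorem vx_yv (i : V) : vx (yv i) = i := rfl

theorem vx_eq {s : V ⊕ₗ V} {v : V} (h : vx s = v) : s = xv v ∨ s = yv v := by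
  obtain ⟨i, rfl | rfl⟩ := cases_v s
  · left; rw [vx_xv] at h; rw [h]
  · right; rw [vx_yv] at h; rw [h]

/-- the restriction of a relation -/
def restr (r : V → V → Prop) (W : Set V) (a b : V) : Prop := r a b ∧ a ∈ W ∧ b ∈ W

open scoped Classical in
/-- set to zero all variables outside `W` -/
noncomputable def proj (K : Type*) [Field K] (W : Set V) :
    MvPolynomial (V ⊕ₗ V) K →ₐ[K] MvPolynomial (V ⊕ₗ V) K :=
  aeval (fun s => if vx s ∈ W then X s else 0)

theorem proj_X_pos {W : Set V} {s : V ⊕ₗ V} (h : vx s ∈ W) : proj K W (X s) = X s := by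
  rw [proj, aeval_X, if_pos h]

theorem proj_X_neg {W : Set V} {s : V ⊕ₗ V} (h : vx s ∉ W) : proj K W (X s) = 0 := by
  rw [proj, aeval_X, if_neg h]

theorem proj_minor_pos {W : Set V} {i j : V} (hi : i ∈ W) (hj : j ∈ W) :
    proj K W (minor K i j) = minor K i j := by
  unfold minor
  rw [map_sub, map_mul, map_mul, proj_X_pos (s := xv i) (by simpa using hi),
    proj_X_pos (s := yv i) (by simpa using hi),
    proj_X_pos (s := xv j) (by simpa using hj), proj_X_pos (s := yv j) (by simpa using hj)]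

theorem proj_minor_neg {W : Set V} {i j : V} (h : ¬ (i ∈ W ∧ j ∈ W)) :
    proj K W (minor K i j) = 0 := by
  unfold minor
  rw [map_sub, map_mul, map_mul]
  by_cases hi : i ∈ W
  · have hj : j ∉ W := fun hj => h ⟨hi, hj⟩
    rw [proj_X_neg (s := yv j) (by simpa using hj), proj_X_neg (s := xv j) (by simpa using hj)]
    ring
  · rw [proj_X_neg (s := yv i) (by simpa using hi), proj_X_neg (s := xv i) (by simpa using hi)]
    ring

theorem proj_mem {r : V → V → Prop} {W : Set V} {p : MvPolynomial (V ⊕ₗ V) K} (h : p ∈ J K r) :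
    proj K W p ∈ J K (restr r W) := by
  have : J K r ≤ (J K (restr r W)).comap (proj K W) := by
    rw [J, Ideal.span_le]
    rintro q ⟨i, j, hij, rfl⟩
    rw [SetLike.mem_coe, Ideal.mem_comap]
    by_cases hW : i ∈ W ∧ j ∈ W
    · rw [proj_minor_pos hW.1 hW.2]
      exact minor_mem ⟨hij, hW.1, hW.2⟩
    · rw [proj_minor_neg hW]; exact Ideal.zero_mem _
  exact this h

variable [LinearOrder V]

theorem proj_sg (W : Set V) (s : V ⊕ₗ V) (L : Finset (V ⊕ₗ V)) :
    proj K W (sg (MvPolynomial (V ⊕ₗ V) K) s L) = sg (MvPolynomial (V ⊕ₗ V) K) s L := by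
  unfold sg
  rw [map_pow, map_neg, map_one]

open scoped Classical in
/-- the retraction of chains on the variables of `W` -/
noncomputable def res (W : Set V) (z : Finset (V ⊕ₗ V) → MvPolynomial (V ⊕ₗ V) K) :
    Finset (V ⊕ₗ V) → MvPolynomial (V ⊕ₗ V) K := fun L =>
  if ∀ s ∈ L, vx s ∈ W then proj K W (z L) else 0

omit [LinearOrder V] in
theorem res_pos {W : Set V} {z : Finset (V ⊕ₗ V) → MvPolynomial (V ⊕ₗ V) K}
    {L : Finset (V ⊕ₗ V)} (h : ∀ s ∈ L, vx s ∈ W) : res W z L = proj K W (z L) := if_pos h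

omit [LinearOrder V] in
theorem res_neg {W : Set V} {z : Finset (V ⊕ₗ V) → MvPolynomial (V ⊕ₗ V) K}
    {L : Finset (V ⊕ₗ V)} (h : ¬ ∀ s ∈ L, vx s ∈ W) : res W z L = 0 := if_neg h

omit [LinearOrder V] in
theorem res_mem {r : V → V → Prop} {W : Set V}
    {z : Finset (V ⊕ₗ V) → MvPolynomial (V ⊕ₗ V) K} (h : ∀ L, z L ∈ J K r) (L) :
    res W z L ∈ J K (restr r W) := by
  by_cases hL : ∀ s ∈ L, vx s ∈ W
  · rw [res_pos hL]; exact proj_mem (h L)
  · rw [res_neg hL]; exact Ideal.zero_mem _

omit [LinearOrder V] in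
theorem res_sub (W : Set V) (y z : Finset (V ⊕ₗ V) → MvPolynomial (V ⊕ₗ V) K) (L) :
    res W (fun M => y M - z M) L = res W y L - res W z L := by
  by_cases hL : ∀ s ∈ L, vx s ∈ W
  · rw [res_pos hL, res_pos hL, res_pos hL, map_sub]
  · rw [res_neg hL, res_neg hL, res_neg hL, sub_zero]

omit [LinearOrder V] in
theorem res_add (W : Set V) (y z : Finset (V ⊕ₗ V) → MvPolynomial (V ⊕ₗ V) K) (L) :
    res W (fun M => y M + z M) L = res W y L + res W z L := by
  by_cases hL : ∀ s ∈ L, vx s ∈ W
  · rw [res_pos hL, res_pos hL, res_pos hL, map_add]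
  · rw [res_neg hL, res_neg hL, res_neg hL, add_zero]

omit [LinearOrder V] in
theorem res_X_mul {W : Set V} {s : V ⊕ₗ V} (hs : vx s ∈ W)
    (z : Finset (V ⊕ₗ V) → MvPolynomial (V ⊕ₗ V) K) (L) :
    res W (fun M => X s * z M) L = X s * res W z L := by
  by_cases hL : ∀ s ∈ L, vx s ∈ W
  · rw [res_pos hL, res_pos hL, map_mul, proj_X_pos hs]
  · rw [res_neg hL, res_neg hL, mul_zero]

theorem res_cre {W : Set V} {s : V ⊕ₗ V} (hs : vx s ∈ W)
    (z : Finset (V ⊕ₗ V) → MvPolynomial (V ⊕ₗ V) K) (L) :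
    res W (cre s z) L = cre s (res W z) L := by
  by_cases hsL : s ∈ L
  · by_cases hL : ∀ t ∈ L, vx t ∈ W
    · have hL' : ∀ t ∈ L.erase s, vx t ∈ W := fun t ht => hL t (Finset.mem_of_mem_erase ht)
      rw [res_pos hL]
      unfold cre
      rw [if_pos hsL, if_pos hsL, res_pos hL', map_mul, proj_sg]
    · have hL' : ¬ ∀ t ∈ L.erase s, vx t ∈ W := by
        intro h
        apply hL
        intro t ht
        by_cases hts : t = s
        · rw [hts]; exact hs
        · exact h t (Finset.mem_erase.2 ⟨hts, ht⟩)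
      rw [res_neg hL]
      unfold cre
      rw [if_pos hsL, res_neg hL', mul_zero]
  · have h0 : cre s z L = 0 := by unfold cre; rw [if_neg hsL]
    have h1 : cre s (res W z) L = 0 := by unfold cre; rw [if_neg hsL]
    rw [h1]
    by_cases hL : ∀ t ∈ L, vx t ∈ W
    · rw [res_pos hL, h0, map_zero]
    · rw [res_neg hL]

omit [LinearOrder V] in
theorem res_res {W W' : Set V} (h : W ⊆ W')
    (z : Finset (V ⊕ₗ V) → MvPolynomial (V ⊕ₗ V) K) (L) :
    res W' (res W z) L = res W z L := by
  by_cases hL : ∀ s ∈ L, vx s ∈ W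
  · have hL' : ∀ s ∈ L, vx s ∈ W' := fun s hs => h (hL s hs)
    rw [res_pos hL', res_pos hL]
    have : (proj K W').comp (proj K W) = proj K W := by
      apply MvPolynomial.algHom_ext
      intro s
      rw [AlgHom.comp_apply]
      by_cases hs : vx s ∈ W
      · rw [proj_X_pos hs, proj_X_pos (h hs)]
      · rw [proj_X_neg hs, map_zero]
    rw [← AlgHom.comp_apply, this]
  · rw [res_neg hL]
    by_cases hL' : ∀ s ∈ L, vx s ∈ W'
    · rw [res_pos hL', res_neg hL, map_zero]
    · rw [res_neg hL']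

/-- the chain `z` only involves the variables of `W` -/
def Supp (W : Set V) (z : Finset (V ⊕ₗ V) → MvPolynomial (V ⊕ₗ V) K) : Prop :=
  ∀ L, res W z L = z L

omit [LinearOrder V] in
theorem Supp.mono {W W' : Set V} (h : W ⊆ W')
    {z : Finset (V ⊕ₗ V) → MvPolynomial (V ⊕ₗ V) K} (hz : Supp W z) : Supp W' z := by
  intro L
  have : z = res W z := funext fun L => (hz L).symm
  rw [this]
  exact res_res h z L

/-- the operator of a leaf `v` at `u` -/
noncomputable def tau (u v : V) (z : Finset (V ⊕ₗ V) → MvPolynomial (V ⊕ₗ V) K) :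
    Finset (V ⊕ₗ V) → MvPolynomial (V ⊕ₗ V) K := fun L =>
  X (xv u) * cre (yv v) z L - X (yv u) * cre (xv v) z L

theorem Supp.tau {W : Set V} {z : Finset (V ⊕ₗ V) → MvPolynomial (V ⊕ₗ V) K} (hz : Supp W z)
    {u v : V} (hu : u ∈ W) (hv : v ∈ W) : Supp W (tau u v z) := by
  intro L
  have hz' : res W z = z := funext hz
  unfold BEI.tau
  rw [res_sub, res_X_mul (by simpa using hu), res_X_mul (by simpa using hu),
    show res W (fun M => cre (yv v) z M) L = res W (cre (yv v) z) L from rfl,
    show res W (fun M => cre (xv v) z M) L = res W (cre (xv v) z) L from rfl,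
    res_cre (by simpa using hv), res_cre (by simpa using hv), hz']

variable [Fintype V]

theorem res_bd (W : Set V) (z : Finset (V ⊕ₗ V) → MvPolynomial (V ⊕ₗ V) K) (L) :
    res W (bd X z) L = bd X (res W z) L := by
  by_cases hL : ∀ t ∈ L, vx t ∈ W
  · rw [res_pos hL]
    unfold bd
    rw [map_sum]
    refine Finset.sum_congr rfl fun s _ => ?_
    unfold ann
    by_cases hs : s ∈ L
    · rw [if_pos hs, if_pos hs, mul_zero, map_zero]
    rw [if_neg hs, if_neg hs, map_mul, map_mul, proj_sg]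
    by_cases hv : vx s ∈ W
    · rw [proj_X_pos hv, res_pos]
      intro t ht
      rcases Finset.mem_insert.1 ht with rfl | ht
      · exact hv
      · exact hL t ht
    · rw [proj_X_neg hv, res_neg]
      · ring
      · intro h
        exact hv (h s (Finset.mem_insert_self _ _))
  · rw [res_neg hL]
    unfold bd
    rw [Finset.sum_eq_zero]
    intro s _
    unfold ann
    by_cases hs : s ∈ L
    · rw [if_pos hs, mul_zero]
    rw [if_neg hs, res_neg]
    · ring
    · intro h
      exact hL fun t ht => h t (Finset.mem_insert_of_mem ht)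

theorem bd_tau (u v : V) (z : Finset (V ⊕ₗ V) → MvPolynomial (V ⊕ₗ V) K) (L) :
    bd X (tau u v z) L = minor K u v * z L - tau u v (bd X z) L := by
  unfold tau
  rw [bd_sub, bd_mul, bd_mul]
  rw [show bd X (fun M => cre (yv v) z M) L = bd X (cre (yv v) z) L from rfl,
    show bd X (fun M => cre (xv v) z M) L = bd X (cre (xv v) z) L from rfl, bd_cre, bd_cre]
  unfold minor
  ring

/-- `z` is not a boundary modulo `I` -/
def NB (I : Ideal (MvPolynomial (V ⊕ₗ V) K))
    (z : Finset (V ⊕ₗ V) → MvPolynomial (V ⊕ₗ V) K) : Prop :=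
  ∀ β : Finset (V ⊕ₗ V) → MvPolynomial (V ⊕ₗ V) K, ¬ ∀ L, z L - bd X β L ∈ I

theorem NB.mono {I I' : Ideal (MvPolynomial (V ⊕ₗ V) K)} (h : I ≤ I')
    {z : Finset (V ⊕ₗ V) → MvPolynomial (V ⊕ₗ V) K} (hz : NB I' z) : NB I z :=
  fun β hβ => hz β fun L => h (hβ L)

/-- non-boundaries stay non-boundaries when vertices are added -/
theorem NB.restr {r : V → V → Prop} {W : Set V}
    {z : Finset (V ⊕ₗ V) → MvPolynomial (V ⊕ₗ V) K} (hz : Supp W z)
    (h : NB (J K (restr r W)) z) : NB (J K r) z := by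
  intro β hβ
  refine h (res W β) fun L => ?_
  have h1 := res_mem (W := W) hβ L
  rw [res_sub] at h1
  rw [← hz L, ← res_bd]
  exact h1

omit [Fintype V] in
theorem ann_mem {I : Ideal (MvPolynomial (V ⊕ₗ V) K)}
    {z : Finset (V ⊕ₗ V) → MvPolynomial (V ⊕ₗ V) K} (h : ∀ L, z L ∈ I) (s) (L) :
    ann s z L ∈ I := by
  unfold ann
  split_ifs
  · exact Ideal.zero_mem _
  · exact Ideal.mul_mem_left _ _ (h _)

omit [Fintype V] in
theorem cre_mem {I : Ideal (MvPolynomial (V ⊕ₗ V) K)}
    {z : Finset (V ⊕ₗ V) → MvPolynomial (V ⊕ₗ V) K} (h : ∀ L, z L ∈ I) (s) (L) :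
    cre s z L ∈ I := by
  unfold cre
  split_ifs
  · exact Ideal.mul_mem_left _ _ (h _)
  · exact Ideal.zero_mem _

theorem bd_mem {I : Ideal (MvPolynomial (V ⊕ₗ V) K)}
    {z : Finset (V ⊕ₗ V) → MvPolynomial (V ⊕ₗ V) K} (h : ∀ L, z L ∈ I) (L) :
    bd X z L ∈ I :=
  Ideal.sum_mem _ fun s _ => Ideal.mul_mem_left _ _ (ann_mem h s L)

/-- coefficient of `y_v` with the other variables of `v` set to zero -/
noncomputable def cf (K : Type*) [Field K] (v : V) (p : MvPolynomial (V ⊕ₗ V) K) :
    MvPolynomial (V ⊕ₗ V) K := proj K {w | w ≠ v} (pderiv (yv v) p)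

omit [Fintype V] [LinearOrder V] in
theorem cf_add (v : V) (p q : MvPolynomial (V ⊕ₗ V) K) : cf K v (p + q) = cf K v p + cf K v q := by
  unfold cf; rw [map_add, map_add]

omit [Fintype V] [LinearOrder V] in
theorem cf_sub (v : V) (p q : MvPolynomial (V ⊕ₗ V) K) : cf K v (p - q) = cf K v p - cf K v q := by
  unfold cf; rw [map_sub, map_sub]

omit [Fintype V] [LinearOrder V] in
theorem cf_zero (v : V) : cf K v 0 = 0 := by
  unfold cf; rw [map_zero, map_zero]

omit [Fintype V] [LinearOrder V] in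
theorem cf_sum (v : V) {ι : Type*} (T : Finset ι) (f : ι → MvPolynomial (V ⊕ₗ V) K) :
    cf K v (∑ i ∈ T, f i) = ∑ i ∈ T, cf K v (f i) := by
  unfold cf; rw [map_sum, map_sum]

omit [Fintype V] [LinearOrder V] in
theorem cf_X_mul_of_ne {v : V} {s : V ⊕ₗ V} (hs : vx s ≠ v) (p : MvPolynomial (V ⊕ₗ V) K) :
    cf K v (X s * p) = X s * cf K v p := by
  classical
  unfold cf
  have h1 : pderiv (yv v) (X s * p) = X s * pderiv (yv v) p := by
    rw [Derivation.leibniz, pderiv_X_of_ne (by rintro rfl; exact hs (vx_yv v)), smul_zero,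
      add_zero, smul_eq_mul]
  rw [h1, map_mul, proj_X_pos (W := {w | w ≠ v}) hs]

omit [Fintype V] [LinearOrder V] in
theorem cf_xv_mul (v : V) (p : MvPolynomial (V ⊕ₗ V) K) :
    cf K v (X (xv v) * p) = 0 := by
  classical
  unfold cf
  have h1 : pderiv (yv v) (X (xv v) * p) = X (xv v) * pderiv (yv v) p := by
    rw [Derivation.leibniz, pderiv_X_of_ne (xv_ne_yv v v), smul_zero,
      add_zero, smul_eq_mul]
  rw [h1, map_mul, proj_X_neg (by simp), zero_mul]

omit [Fintype V] [LinearOrder V] in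
theorem cf_yv_mul (v : V) (p : MvPolynomial (V ⊕ₗ V) K) :
    cf K v (X (yv v) * p) = proj K {w | w ≠ v} p := by
  classical
  unfold cf
  have h1 : pderiv (yv v) (X (yv v) * p) = X (yv v) * pderiv (yv v) p + p := by
    rw [Derivation.leibniz, pderiv_X_self, smul_eq_mul, smul_eq_mul, mul_one]
  rw [h1, map_add, map_mul, proj_X_neg (by simp), zero_mul, zero_add]

omit [Fintype V] [LinearOrder V] in
theorem cf_mem {r : V → V → Prop} (hr : ∀ a b, r a b → r b a) {u v : V} (huv : u ≠ v)
    (hleaf : ∀ b, r v b → b = u ∨ b = v) {p : MvPolynomial (V ⊕ₗ V) K} (hp : p ∈ J K r) :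
    cf K v p ∈ J K (restr r {w | w ≠ v}) ⊔ Ideal.span {X (xv u)} := by
  classical
  have hxu : ∀ a : MvPolynomial (V ⊕ₗ V) K, a * X (xv u) ∈
      J K (restr r {w | w ≠ v}) ⊔ Ideal.span {X (xv u)} := fun a =>
    Ideal.mul_mem_left _ _ (Ideal.mem_sup_right (Ideal.mem_span_singleton_self _))
  have hvu : ∀ a : MvPolynomial (V ⊕ₗ V) K, cf K v (a * minor K v u) ∈
      J K (restr r {w | w ≠ v}) ⊔ Ideal.span {X (xv u)} := by
    intro a
    have e : a * minor K v u = X (xv v) * (a * X (yv u)) - X (yv v) * (a * X (xv u)) := by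
      unfold minor; ring
    rw [e, cf_sub, cf_xv_mul, cf_yv_mul, zero_sub, map_mul, proj_X_pos (W := {w | w ≠ v})
      (by simpa using huv)]
    exact (Ideal.neg_mem_iff _).2 (hxu _)
  have key : ∀ a, cf K v (a * p) ∈ J K (restr r {w | w ≠ v}) ⊔ Ideal.span {X (xv u)} := by
    unfold J at hp
    induction hp using Submodule.span_induction with
    | mem q hq =>
      obtain ⟨i, j, hij, rfl⟩ := hq
      intro a
      by_cases hi : i = v
      · subst hi
        rcases hleaf j hij with rfl | rfl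
        · exact hvu a
        · rw [minor_self, mul_zero, cf_zero]; exact Ideal.zero_mem _
      by_cases hj : j = v
      · subst hj
        rcases hleaf i (hr _ _ hij) with rfl | rfl
        · rw [minor_comm, mul_neg, ← neg_mul]
          exact hvu (-a)
        · rw [minor_self, mul_zero, cf_zero]; exact Ideal.zero_mem _
      · have e : a * minor K i j = X (xv i) * (X (yv j) * a) - X (xv j) * (X (yv i) * a) := by
          unfold minor; ring
        rw [e, cf_sub, cf_X_mul_of_ne (by simpa using hi), cf_X_mul_of_ne (by simpa using hj),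
          cf_X_mul_of_ne (by simpa using hj), cf_X_mul_of_ne (by simpa using hi)]
        have e2 : X (xv i) * (X (yv j) * cf K v a) - X (xv j) * (X (yv i) * cf K v a) =
            cf K v a * minor K i j := by unfold minor; ring
        rw [e2]
        exact Ideal.mul_mem_left _ _ (Ideal.mem_sup_left (minor_mem ⟨hij, hi, hj⟩))
    | zero => intro a; rw [mul_zero, cf_zero]; exact Ideal.zero_mem _
    | add x y _ _ hx hy =>
      intro a; rw [mul_add, cf_add]; exact Ideal.add_mem _ (hx a) (hy a)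
    | smul b x _ hx => intro a; rw [smul_eq_mul, ← mul_assoc]; exact hx _
  have := key 1
  rwa [one_mul] at this

open scoped Classical in
/-- the coefficient functional on chains -/
noncomputable def cfc (v : V) (z : Finset (V ⊕ₗ V) → MvPolynomial (V ⊕ₗ V) K) :
    Finset (V ⊕ₗ V) → MvPolynomial (V ⊕ₗ V) K := fun L =>
  if ∀ s ∈ L, vx s ≠ v then cf K v (z L) else 0

theorem cf_bd (v : V) (z : Finset (V ⊕ₗ V) → MvPolynomial (V ⊕ₗ V) K) (L)
    (hL : ∀ s ∈ L, vx s ≠ v) :
    cf K v (bd X z L) = bd X (cfc v z) L + res {w | w ≠ v} (ann (yv v) z) L := by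
  classical
  have h0 : ∀ s, vx s = v → ann s (cfc v z) L = 0 := by
    intro s hs
    unfold ann
    split_ifs
    · rfl
    · unfold cfc
      rw [if_neg, mul_zero]
      intro h
      exact h s (Finset.mem_insert_self _ _) hs
  have h1 : res {w | w ≠ v} (ann (yv v) z) L =
      ∑ s, if s = yv v then res {w | w ≠ v} (ann (yv v) z) L else 0 := by
    rw [Finset.sum_ite_eq' Finset.univ (yv v), if_pos (Finset.mem_univ _)]
  rw [h1]
  unfold bd
  rw [cf_sum, ← Finset.sum_add_distrib]
  refine Finset.sum_congr rfl fun s _ => ?_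
  by_cases hs : vx s = v
  · rw [h0 s hs, mul_zero, zero_add]
    rcases vx_eq hs with rfl | rfl
    · rw [cf_xv_mul, if_neg (xv_ne_yv v v)]
    · rw [cf_yv_mul, if_pos rfl, res_pos hL]
  · rw [cf_X_mul_of_ne hs, if_neg (by rintro rfl; exact hs (vx_yv v)), add_zero]
    congr 1
    unfold ann
    by_cases hsL : s ∈ L
    · rw [if_pos hsL, if_pos hsL, cf_zero]
    · rw [if_neg hsL, if_neg hsL]
      unfold cfc
      rw [if_pos]
      · unfold cf
        have e : pderiv (yv v) (sg (MvPolynomial (V ⊕ₗ V) K) s L * z (insert s L)) =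
            sg (MvPolynomial (V ⊕ₗ V) K) s L * pderiv (yv v) (z (insert s L)) := by
          unfold sg
          rcases neg_one_pow_eq_or (MvPolynomial (V ⊕ₗ V) K)
            (L.filter (· < s)).card with h | h <;> rw [h]
          · rw [one_mul, one_mul]
          · rw [neg_one_mul, neg_one_mul, map_neg]
        rw [e, map_mul, proj_sg]
      · intro t ht
        rcases Finset.mem_insert.1 ht with rfl | ht
        · exact hs
        · exact hL t ht

/-- **The leaf step.** -/
theorem leaf {r : V → V → Prop} (hr : ∀ a b, r a b → r b a) {u v : V} (huv : u ≠ v)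
    (hleaf : ∀ b, r v b → b = u ∨ b = v) {z : Finset (V ⊕ₗ V) → MvPolynomial (V ⊕ₗ V) K}
    (hz : Supp {w | w ≠ v} z) (h : NB (J K (shortcut (restr r {w | w ≠ v}) u)) z) :
    NB (J K r) (tau u v z) := by
  classical
  intro β hβ
  have hz0 : ∀ L, (¬ ∀ s ∈ L, vx s ≠ v) → z L = 0 := by
    intro L hL
    rw [← hz L, res_neg hL]
  have hann : ∀ L, ann (yv v) z L = 0 := by
    intro L
    unfold ann
    split_ifs
    · rfl
    · rw [hz0, mul_zero]
      intro h
      exact h (yv v) (Finset.mem_insert_self _ _) (vx_yv v)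
  have hann' : ann (yv v) z = fun _ => 0 := funext hann
  have hcre0 : ∀ (s : V ⊕ₗ V) (L : Finset (V ⊕ₗ V)), cre s (fun _ => (0 : MvPolynomial (V ⊕ₗ V) K)) L = 0 := by
    intro s L; unfold cre; split_ifs <;> simp
  have hat : ∀ L, ann (yv v) (tau u v z) L = X (xv u) * z L := by
    intro L
    unfold tau
    have e1 := ann_cre_self (yv v) z L
    have e2 := ann_cre_of_ne (yv_ne_xv v v) z L
    rw [hann', hcre0] at e1 e2
    have e3 : ann (yv v) (fun L => X (xv u) * cre (yv v) z L - X (yv u) * cre (xv v) z L) L =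
        X (xv u) * ann (yv v) (cre (yv v) z) L - X (yv u) * ann (yv v) (cre (xv v) z) L := by
      unfold ann; split_ifs <;> ring
    rw [e3, e2, neg_zero, mul_zero, sub_zero]
    rw [add_zero] at e1
    rw [e1]
  -- step 1
  have h1 : ∀ L, X (xv u) * z L + bd X (ann (yv v) β) L ∈ J K r := by
    intro L
    have e := ann_mem hβ (yv v) L
    have e2 : ann (yv v) (fun L => tau u v z L - bd X β L) L =
        ann (yv v) (tau u v z) L - ann (yv v) (bd X β) L := by
      unfold ann; split_ifs <;> ring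
    rw [e2, hat, sub_eq_add_neg, ← bd_ann] at e
    exact e
  -- step 2
  have h2 : ∀ L, X (xv u) * z L + bd X (res {w | w ≠ v} (ann (yv v) β)) L ∈
      J K (restr r {w | w ≠ v}) := by
    intro L
    have e := res_mem (W := {w | w ≠ v}) h1 L
    rw [res_add, res_X_mul (by simpa using huv)] at e
    rw [← hz L, ← res_bd]
    exact e
  -- step 3
  have h3 : ∀ L, res {w | w ≠ v} (ann (yv v) β) L + bd X (cfc v β) L ∈
      J K (restr r {w | w ≠ v}) ⊔ Ideal.span {X (xv u)} := by
    intro L
    by_cases hL : ∀ s ∈ L, vx s ≠ v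
    · have e := cf_mem hr huv hleaf (hβ L)
      have e0 : tau u v z L = 0 := by
        unfold tau cre
        rw [if_neg (fun h => hL _ h (vx_yv v)), if_neg (fun h => hL _ h (vx_xv v))]
        ring
      rw [e0, zero_sub, show -(bd X β L) = 0 - bd X β L from (zero_sub _).symm, cf_sub, cf_zero,
        cf_bd v β L hL, zero_sub, Ideal.neg_mem_iff] at e
      rw [add_comm]
      exact e
    · have e1 : res {w | w ≠ v} (ann (yv v) β) L = 0 := res_neg hL
      have e2 : bd X (cfc v β) L = 0 := by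
        unfold bd
        refine Finset.sum_eq_zero fun s _ => ?_
        unfold ann
        split_ifs
        · rw [mul_zero]
        · unfold cfc
          rw [if_neg, mul_zero, mul_zero]
          intro h
          exact hL fun t ht => h t (Finset.mem_insert_of_mem ht)
      rw [e1, e2, add_zero]; exact Ideal.zero_mem _
  have h4 : ∀ L, ∃ g, res {w | w ≠ v} (ann (yv v) β) L + bd X (cfc v β) L - X (xv u) * g ∈
      J K (restr r {w | w ≠ v}) := by
    intro L
    obtain ⟨j, hj, k, hk, hjk⟩ := Submodule.mem_sup.1 (h3 L)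
    obtain ⟨g, rfl⟩ := Ideal.mem_span_singleton.1 hk
    refine ⟨g, ?_⟩
    rw [← hjk, add_sub_cancel_right]
    exact hj
  choose γ hγ using h4
  have h5 : ∀ L, bd X (res {w | w ≠ v} (ann (yv v) β)) L - X (xv u) * bd X γ L ∈
      J K (restr r {w | w ≠ v}) := by
    intro L
    have e := bd_mem hγ L
    rw [bd_sub, bd_add, bd_mul, show bd X (fun M => bd X (cfc v β) M) L =
      bd X (bd X (cfc v β)) L from rfl, bd_bd, add_zero] at e
    exact e
  refine h (fun L => - γ L) fun L => ?_
  rw [bd_neg, sub_neg_eq_add]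
  apply colon (s := restr r {w | w ≠ v}) (fun a b h => ⟨hr _ _ h.1, h.2.2, h.2.1⟩) u
  have e := Ideal.sub_mem _ (h2 L) (h5 L)
  have e2 : X (xv u) * z L + bd X (res {w | w ≠ v} (ann (yv v) β)) L -
      (bd X (res {w | w ≠ v} (ann (yv v) β)) L - X (xv u) * bd X γ L) =
      X (xv u) * (z L + bd X γ L) := by ring
  rw [e2] at e
  exact e

end BEI
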